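import Mathlib
import Pool.Agent.H634R3.WG.Trans
import Pool.Agent.W825.FP.Pp

set_option autoImplicit false

/-!
# Planes with a collineation group with few point orbits and small point stabilizers
-/

namespace Pool.Agent.R116

open Configuration Configuration.ProjectivePlane Finset Pool.Agent.H951R4.OD Pool.Agent.H634R3.WG

/-- A plane of order `n` with a finite group of collineations with at most `t` orbits on the points
and point stabilizers of order at most `t`. -/
def HasFew (t n : ℕ) : Prop :=
  ∃ (P L : Type) (_ : Finite P) (_ : Finite L) (_ : Membership P L) (_ : ProjectivePlane P L)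
    (G : Type) (_ : Group G) (_ : Finite G) (_ : MulAction G P) (_ : MulAction G L),
    order P L = n ∧ (∀ (g : G) (p : P) (l : L), g • p ∈ g • l ↔ p ∈ l) ∧
      Nat.card (MulAction.orbitRel.Quotient G P) ≤ t ∧
      ∀ x : P, Nat.card (MulAction.stabilizer G x) ≤ t

/-- large prime divisors of the number of points divide the order of the group -/
theorem dvd_group {G P : Type} [Group G] [Finite G] [Finite P] [MulAction G P] {t q : ℕ}
    (ho : Nat.card (MulAction.orbitRel.Quotient G P) ≤ t)
    (hs : ∀ x : P, Nat.card (MulAction.stabilizer G x) ≤ t) (hq : q.Prime)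
    (hqt : t * t.factorial < q) (hP : Nonempty P) (hqP : q ∣ Nat.card P) : q ∣ Nat.card G := by
  classical
  have : Fintype G := Fintype.ofFinite G
  have : Fintype P := Fintype.ofFinite P
  have : Fintype (MulAction.orbitRel.Quotient G P) := Fintype.ofFinite _
  have h1 := MulAction.card_eq_sum_card_group_div_card_stabilizer G P
  have hdiv : ∀ x : P, Fintype.card (MulAction.stabilizer G x) ∣ t.factorial := by
    intro x
    apply Nat.dvd_factorial Fintype.card_pos
    rw [← Nat.card_eq_fintype_card]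
    exact hs x
  have h2 : t.factorial * Fintype.card P = Fintype.card G *
      ∑ ω : MulAction.orbitRel.Quotient G P,
        t.factorial / Fintype.card (MulAction.stabilizer G ω.out) := by
    rw [h1, mul_sum, mul_sum]
    apply sum_congr rfl
    intro ω _
    obtain ⟨a, ha⟩ := hdiv ω.out
    obtain ⟨b, hb⟩ : Fintype.card (MulAction.stabilizer G ω.out) ∣ Fintype.card G := by
      rw [← Nat.card_eq_fintype_card, ← Nat.card_eq_fintype_card]
      exact Subgroup.card_subgroup_dvd_card _
    have hpos : 0 < Fintype.card (MulAction.stabilizer G ω.out) := Fintype.card_pos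
    rw [ha, hb, Nat.mul_div_cancel_left _ hpos, Nat.mul_div_cancel_left _ hpos]
    ring
  rw [Nat.card_eq_fintype_card] at hqP ⊢
  have h3 : q ∣ Fintype.card G *
      ∑ ω : MulAction.orbitRel.Quotient G P,
        t.factorial / Fintype.card (MulAction.stabilizer G ω.out) := by
    rw [← h2]
    exact Dvd.dvd.mul_left hqP _
  rcases (Nat.Prime.dvd_mul hq).1 h3 with h4 | h4
  · exact h4
  · exfalso
    have h5 : ∑ ω : MulAction.orbitRel.Quotient G P,
        t.factorial / Fintype.card (MulAction.stabilizer G ω.out) ≤ t * t.factorial := by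
      calc _ ≤ ∑ _ω : MulAction.orbitRel.Quotient G P, t.factorial :=
            sum_le_sum fun ω _ => Nat.div_le_self _ _
        _ = Fintype.card (MulAction.orbitRel.Quotient G P) * t.factorial := by
            rw [sum_const, card_univ, smul_eq_mul]
        _ ≤ t * t.factorial := by
            rw [← Nat.card_eq_fintype_card]
            gcongr
    have h6 : 0 < ∑ ω : MulAction.orbitRel.Quotient G P,
        t.factorial / Fintype.card (MulAction.stabilizer G ω.out) := by
      obtain ⟨x⟩ := hP
      apply Finset.sum_pos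
      · intro ω _
        exact Nat.div_pos (Nat.le_of_dvd (Nat.factorial_pos t) (hdiv _)) Fintype.card_pos
      · exact ⟨Quotient.mk _ x, mem_univ _⟩
    have h7 := Nat.le_of_dvd h6 h4
    omega

/-- the test: no power of an exact prime divisor `r` of the order is `-1` modulo a large prime
divisor `q` of the number of points -/
theorem few_test {t n : ℕ} (h : HasFew t n) {q : ℕ} (hq : q.Prime) (hqt : t * t.factorial < q)
    (hq2 : 2 < q) (hqn : q ∣ n ^ 2 + n + 1) {r : ℕ} (hr : r.Prime) {j : ℕ}
    (hj : (r : ZMod q) ^ j = -1) {a : ℕ} (ha : Odd a) {u : ℕ} (hu : ¬ r ∣ u)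
    (hN : n = r ^ a * u) : False := by
  classical
  obtain ⟨P, L, _, _, _, _, G, _, _, _, _, hn, hinc, ho, hs⟩ := h
  have : Fintype P := Fintype.ofFinite P
  have : Fintype L := Fintype.ofFinite L
  have : Fact q.Prime := ⟨hq⟩
  have hcard := card_points P L
  rw [hn] at hcard
  have hP : Nonempty P := Fintype.card_pos_iff.1 (by rw [hcard]; positivity)
  have h1 : q ∣ Nat.card G := dvd_group ho hs hq hqt hP (by
    rw [Nat.card_eq_fintype_card, hcard]
    exact hqn)
  obtain ⟨g, hg⟩ := exists_prime_orderOf_dvd_card' (G := G) q h1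
  have hgq : g ^ q = 1 := by rw [← hg, pow_orderOf_eq_one]
  have ht : t ≤ t * t.factorial := Nat.le_mul_of_pos_right _ (Nat.factorial_pos t)
  have hfree : ∀ x : P, g • x ≠ x := by
    intro x hx
    have h2 : orderOf (⟨g, hx⟩ : MulAction.stabilizer G x) = q := by
      rw [← hg]
      exact Subgroup.orderOf_mk g hx
    have h3 : q ∣ Nat.card (MulAction.stabilizer G x) := by
      rw [← h2]
      exact orderOf_dvd_natCard _
    have h4 := Nat.le_of_dvd Nat.card_pos h3
    have h5 := hs x
    omega
  have hσ : (MulAction.toPerm g : Equiv.Perm P) ^ q ^ 1 = 1 := by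
    have h2 : (MulAction.toPermHom G P g) ^ q = MulAction.toPermHom G P (g ^ q) :=
      (map_pow _ _ _).symm
    rw [hgq, map_one] at h2
    rw [pow_one]
    exact h2
  have hτ : (MulAction.toPerm g : Equiv.Perm L) ^ q ^ 1 = 1 := by
    have h2 : (MulAction.toPermHom G L g) ^ q = MulAction.toPermHom G L (g ^ q) :=
      (map_pow _ _ _).symm
    rw [hgq, map_one] at h2
    rw [pow_one]
    exact h2
  refine Pool.Agent.W825.FP.pp_test (P := P) (L := L) (MulAction.toPerm g) (MulAction.toPerm g)
    (fun p l => hinc g p l) hq hq2 hσ hτ ?_ hr hj ha hu (hn.trans hN)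
  have h2 : IsEmpty {p : P // (MulAction.toPerm g : Equiv.Perm P) p = p} :=
    ⟨fun p => hfree p.1 p.2⟩
  rw [Nat.card_of_isEmpty]
  exact Even.zero

theorem order_pos {t n : ℕ} (h : HasFew t n) : 2 ≤ n := by
  obtain ⟨P, L, _, _, _, _, G, _, _, _, _, hn, -⟩ := h
  have := one_lt_order P L
  omega

/-- enlarging the set of excluded primes -/
theorem polX_mono {f : ℕ → ℤ} {c0 c1 : ℕ} {e : ℝ} {Δ : ℤ} (h : PolX f c0 e Δ) (hd : c0 ∣ c1)
    (h1 : 0 < c1) : PolX f c1 e Δ where
  pos := h1
  two := h.two.trans hd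
  e01 := h.e01
  neg := h.neg
  per := h.per
  cnt := fun q hq hqc => h.cnt q hq (fun h2 => hqc (h2.trans hd))
  lift := fun q hq hqc => h.lift q hq (fun h2 => hqc (h2.trans hd))

/-- the excluded primes -/
def cfew (t : ℕ) : ℕ := 6 * (t * t.factorial).factorial

theorem cfew_pos (t : ℕ) : 0 < cfew t := by
  unfold cfew
  have := Nat.factorial_pos (t * t.factorial)
  omega

theorem lt_of_not_dvd_cfew {t q : ℕ} (hq : q.Prime) (h : ¬ q ∣ cfew t) :
    t * t.factorial < q ∧ 3 < q := by
  unfold cfew at h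
  constructor
  · by_contra hcon
    push Not at hcon
    exact h (Dvd.dvd.mul_left (Nat.dvd_factorial hq.pos hcon) _)
  · by_contra hcon
    push Not at hcon
    apply h
    apply Dvd.dvd.mul_right
    have := hq.two_le
    interval_cases q <;> norm_num

theorem fl_one' (n : ℕ) : fl 1 n = ((n ^ 2 + n + 1 : ℕ) : ℤ) := by
  unfold fl
  push_cast
  ring

theorem passX_few {t n : ℕ} (h : HasFew t n) : PassX (fl 1) (cfew t) n := by
  intro r q hr hq hqc hqf _ hch
  obtain ⟨hrp, -, hrn, hrn2⟩ := hr
  obtain ⟨h1, h3⟩ := lt_of_not_dvd_cfew hq hqc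
  rw [fl_one'] at hqf
  have hqf' : q ∣ n ^ 2 + n + 1 := by exact_mod_cast hqf
  obtain ⟨u, hu⟩ := hrn
  refine few_test h hq h1 (by omega) hqf' hrp (j := (q - 1) / 2) ?_ odd_one (u := u) ?_
    (by rw [hu, pow_one])
  · exact (ch_eq_neg_one_iff r q hq (by omega)).1 hch
  · rintro ⟨w, rfl⟩
    apply hrn2
    rw [hu]
    exact ⟨w, by ring⟩

theorem count_few (t : ℕ) (ε : ℝ) (hε : 0 < ε) :
    ∃ C : ℝ, 0 < C ∧ ∀ X : ℕ, 3 ≤ X →
      ({n : ℕ | n ≤ X ∧ HasFew t n}.ncard : ℝ) ≤ C * X * (Real.log X) ^ (ε - 1) := by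
  have hpol : PolX (fl 1) (cfew t) 1 (1 - 4 * ((1 : ℕ) : ℤ)) := by
    apply polX_mono (TaskPolX.taskPolX 1 le_rfl) _ (cfew_pos t)
    unfold cl cfew
    exact Dvd.intro _ rfl
  obtain ⟨C, hC, H⟩ := mainX _ _ _ _ hpol ε hε
  refine ⟨C, hC, fun X hX3 => le_trans ?_ (H X hX3)⟩
  have hfin : {n : ℕ | 1 ≤ n ∧ n ≤ X ∧ PassX (fl 1) (cfew t) n}.Finite :=
    (Set.finite_Iic X).subset fun n hn => hn.2.1
  exact_mod_cast Set.ncard_le_ncard (fun n hn => by
    obtain ⟨h2, hs⟩ := hn
    exact ⟨by have := order_pos hs; omega, h2, passX_few hs⟩) hfin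

end Pool.Agent.R116
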