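import Pool.Agent.R116.PG
import Pool.Agent.TH66.HF.Mt

set_option autoImplicit false

/-!
# Fixed `lam`, orders with a fixed number of prime factors, many automorphisms
-/

namespace Pool.Agent.R116.FT

open Finset Filter Topology MulAction
open Pool.Agent.H951R4.OD Pool.Agent.H634R3.PPC Pool.Agent.H634R3.WG Pool.Agent.H634R3.WG.Lam
open Pool.Agent.R116.Hall Pool.Agent.R116.PG
open Pool.Agent.TH66.HF (RR rr_facts rr_mono T1 avoid1' exists_diverges neg_ne exact_dvd not_square)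
open Pool.Agent.TH66.SG (LL NN density_of_tuples mem_LL)

/-- a symmetric design of order `n` with `Ev s` -/
def HasEv (s lam n : ℕ) : Prop :=
  ∃ (v : ℕ) (B : Fin v → Finset (Fin v)), SD v (n + lam) lam B ∧ Ev s v B

theorem excl_ev {s s' k lam w : ℕ} (hw : w.Prime) (hw2 : w ≠ 2) (hlam : 1 ≤ lam) (hwl : lam < w)
    (hsw : s' < w)
    (l : Fin (k + 1) → ℕ) (hl : ∀ i, (l i).Prime)
    (h : (fun i => (l i : ZMod w)) ∈ T1 s k lam w)
    (hd : HasEv s' lam (∏ i, l i)) : False := by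
  have hwf : Fact w.Prime := ⟨hw⟩
  obtain ⟨b, κ, hb, hwb, hκ, h0, h1, hprod⟩ := h
  obtain ⟨v, B, hd, hEv⟩ := hd
  have hv : 2 ≤ v := two_le_v hd
  have hneg := neg_ne hw hw2
  have hn : ((∏ i, l i : ℕ) : ZMod w) = κ ^ 2 := by
    push_cast
    exact hprod
  have hnd : ¬ l 0 ∣ ∏ i : Fin k, l i.succ := by
    intro hd
    obtain ⟨i, -, hi⟩ := (Prime.dvd_finsetProd_iff (hl 0).prime _).1 hd
    have h4 := (Nat.prime_dvd_prime_iff_eq (hl 0) (hl i.succ)).1 hi
    apply hneg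
    have e0 : (l 0 : ZMod w) ^ b = -1 := h0
    have e1 : (l i.succ : ZMod w) ^ b = 1 := h1 i
    rw [← e0, ← e1, h4]
  obtain ⟨-, hcount⟩ := repl v _ lam hv hlam B hd.size hd.pair
  obtain ⟨n, hnn⟩ : ∃ n, n = ∏ i, l i := ⟨_, rfl⟩
  rw [← hnn] at hn hcount hd
  have hvl : lam * v + (n + lam) = (n + lam) * (n + lam) + lam := by
    rw [hcount]
    obtain ⟨u, rfl⟩ : ∃ u, v = u + 1 := ⟨v - 1, by omega⟩
    rw [Nat.add_sub_cancel]
    ring
  have hwv : w ∣ v := by
    have h2 := congrArg (Nat.cast : ℕ → ZMod w) hvl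
    push_cast at h2
    rw [hn] at h2
    have h3 : (lam : ZMod w) * v = 0 := by
      linear_combination h2 + (κ ^ 2 + κ + lam) * hκ
    rcases mul_eq_zero.1 h3 with h | h
    · exfalso
      rw [ZMod.natCast_eq_zero_iff] at h
      have := Nat.le_of_dvd (by omega) h
      omega
    · rwa [ZMod.natCast_eq_zero_iff] at h
  have hodd : Odd v := by
    by_contra hcon
    rw [Nat.not_odd_iff_even] at hcon
    have h5 := schutz_design hv hlam hd.lt hd.size hd.pair hcon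
    rw [Nat.add_sub_cancel, hnn] at h5
    exact not_square l hl hnd h5
  obtain ⟨σ, a, haut, hσ, heven⟩ := hEv w hw hsw hwv
  exact fix_test_e hv hlam hd.lt hd.size hd.pair hodd haut hw hw2 hσ heven (hl 0) odd_one hnd
    (by rw [Nat.add_sub_cancel, hnn, pow_one, Fin.prod_univ_succ]) (j := b) h0

theorem density_ev (s' lam j : ℕ) (hlam : 2 ≤ lam) (hj : 1 ≤ j) :
    Tendsto (fun X : ℕ =>
      (({N : ℕ | N ≤ X ∧ N.primeFactorsList.length = j ∧ HasEv s' lam N} : Set ℕ).ncard : ℝ) /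
      (({N : ℕ | N ≤ X ∧ N.primeFactorsList.length = j} : Set ℕ).ncard : ℝ)) atTop (𝓝 0) := by
  classical
  obtain ⟨s, hs, hdiv⟩ := exists_diverges lam hlam
  obtain ⟨k, rfl⟩ : ∃ k, j = k + 1 := ⟨j - 1, by omega⟩
  refine density_of_tuples (by omega) _ fun ε hε => ?_
  obtain ⟨F, hF, X₀, hX₀⟩ := avoid1' s k lam (lam + 2 + s') (by omega) (hdiv _) ε hε
  refine ⟨X₀, fun X hX => le_trans ?_ (hX₀ X hX)⟩
  norm_cast
  refine card_le_card fun l hl => ?_
  rw [mem_filter] at hl ⊢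
  refine ⟨hl.1, fun w hw hmem => ?_⟩
  have h1 := hF w hw
  obtain ⟨a1, a2, a3, -⟩ := rr_facts (rr_mono (by omega : lam + 2 ≤ lam + 2 + s') h1)
  have h2 := h1.2.1
  exact excl_ev a1 a2 (by omega) a3 (by omega) l (mem_LL.1 hl.1).1 hmem hl.2

end Pool.Agent.R116.FT
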