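import Pool.Agent.R116.PG
import Pool.Agent.TH66.HF.Mt
import Pool.Agent.H634R3.WG.HadT
import Pool.Agent.H634R3.WG.Trans

set_option autoImplicit false

/-!
# Hadamard designs with many automorphisms of prime power order fixing an even number of points
-/

namespace Pool.Agent.R116.Had

open Finset Filter Topology MulAction
open Pool.Agent.H951R4.OD Pool.Agent.H634R3.PPC Pool.Agent.H634R3.WG Pool.Agent.H634R3.WG.Lam
open Pool.Agent.R116.Hall Pool.Agent.R116.PG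
open Pool.Agent.TH66.HF (RD rd_facts TH avoidD neg_ne)
open Pool.Agent.TH66.SG (LL density_of_tuples mem_LL)

/-- a Hadamard design of order `n` with `Ev s` -/
def HasHadE (s n : ℕ) : Prop :=
  2 ≤ n ∧ ∃ B : Fin (4 * n - 1) → Finset (Fin (4 * n - 1)), (∀ i, (B i).card = 2 * n - 1) ∧
    (∀ x y : Fin (4 * n - 1), x ≠ y →
      (Finset.univ.filter (fun i => x ∈ B i ∧ y ∈ B i)).card = n - 1) ∧ Ev s (4 * n - 1) B

theorem test_had {s n : ℕ} (h : HasHadE s n) {q r j a u : ℕ} (hq : q.Prime) (hsq : s < q)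
    (hqv : q ∣ 4 * n - 1) (hr : r.Prime) (hj : (r : ZMod q) ^ j = -1) (ha : Odd a)
    (hu : ¬ r ∣ u) (hnu : n = r ^ a * u) : False := by
  obtain ⟨hn2, B, hk, hpair, hEv⟩ := h
  obtain ⟨σ, b, haut, hσ, heven⟩ := hEv q hq hsq hqv
  have hodd : Odd (4 * n - 1) := ⟨2 * n - 1, by omega⟩
  have hq2 : q ≠ 2 := by
    rintro rfl
    exact (Nat.not_even_iff_odd.2 hodd) (even_iff_two_dvd.2 hqv)
  have hord : 2 * n - 1 - (n - 1) = n := by omega
  exact fix_test_e (k := 2 * n - 1) (lam := n - 1) (by omega) (by omega) (by omega) hk hpair hodd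
    haut hq hq2 hσ heven hr ha hu (hord.trans hnu) hj

theorem pass_had {s n : ℕ} (h : HasHadE s n) :
    PassX (fun n => 4 * (n : ℤ) - 1) (2 * s.factorial) n := by
  intro r q hr hq hqc hqf _ hch
  obtain ⟨hrp, -, hrn, hrn2⟩ := hr
  have hn2 := h.1
  have hq2 : q ≠ 2 := by
    rintro rfl
    exact hqc (dvd_mul_right 2 _)
  have hsq : s < q := by
    by_contra hcon
    push Not at hcon
    exact hqc (Dvd.dvd.mul_left (Nat.dvd_factorial hq.pos hcon) _)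
  have hc : (4 * (n : ℤ) - 1) = ((4 * n - 1 : ℕ) : ℤ) := by
    rw [Nat.cast_sub (by omega)]
    push_cast
    ring
  simp only [hc] at hqf
  obtain ⟨u, hu⟩ := hrn
  refine test_had h hq hsq (by exact_mod_cast hqf) hrp ((ch_eq_neg_one_iff r q hq hq2).1 hch)
    odd_one (u := u) ?_ (by rw [pow_one]; exact hu)
  rintro ⟨w, rfl⟩
  apply hrn2
  rw [hu]
  exact ⟨w, by ring⟩

theorem count_hadE (s : ℕ) (ε : ℝ) (hε : 0 < ε) :
    ∃ C : ℝ, 0 < C ∧ ∀ X : ℕ, 3 ≤ X →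
      ({n : ℕ | n ≤ X ∧ HasHadE s n}.ncard : ℝ) ≤ C * X * (Real.log X) ^ (ε - 1) := by
  have hpol : PolX (fun n => 4 * (n : ℤ) - 1) (2 * s.factorial) 0 (-1) :=
    Pool.Agent.R116.polX_mono polX_had (dvd_mul_right _ _)
      (Nat.mul_pos (by norm_num) (Nat.factorial_pos s))
  obtain ⟨C, hC, H⟩ := mainX _ _ _ _ hpol ε hε
  refine ⟨C, hC, fun X hX3 => le_trans ?_ (H X hX3)⟩
  have hfin : {n : ℕ | 1 ≤ n ∧ n ≤ X ∧
      PassX (fun n => 4 * (n : ℤ) - 1) (2 * s.factorial) n}.Finite :=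
    (Set.finite_Iic X).subset fun n hn => hn.2.1
  exact_mod_cast Set.ncard_le_ncard (fun n hn => by
    obtain ⟨h2, hs⟩ := hn
    exact ⟨by have := hs.1; omega, h2, pass_had hs⟩) hfin

theorem excl_hadE {s k w : ℕ} (hw : w.Prime) (hw2 : w ≠ 2) (hsw : s < w)
    (l : Fin (k + 1) → ℕ) (hl : ∀ i, (l i).Prime)
    (h : (fun i => (l i : ZMod w)) ∈ TH k w) (hd : HasHadE s (∏ i, l i)) : False := by
  have hwf : Fact w.Prime := ⟨hw⟩
  obtain ⟨b, hb, hwb, h0, h1, hprod⟩ := h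
  have hneg := neg_ne hw hw2
  have hn2 := hd.1
  have hnd : ¬ l 0 ∣ ∏ i : Fin k, l i.succ := by
    intro hd
    obtain ⟨i, -, hi⟩ := (Prime.dvd_finsetProd_iff (hl 0).prime _).1 hd
    have h4 := (Nat.prime_dvd_prime_iff_eq (hl 0) (hl i.succ)).1 hi
    apply hneg
    have e0 : (l 0 : ZMod w) ^ b = -1 := h0
    have e1 : (l i.succ : ZMod w) ^ b = 1 := h1 i
    rw [← e0, ← e1, h4]
  have hwv : w ∣ 4 * (∏ i, l i) - 1 := by
    rw [← ZMod.natCast_eq_zero_iff, Nat.cast_sub (by omega)]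
    push_cast
    have e : (4 : ZMod w) * ∏ i, (l i : ZMod w) = 1 := hprod
    rw [e, sub_self]
  exact test_had hd hw hsw hwv (hl 0) (j := b) h0 (a := 1) odd_one hnd
    (by rw [pow_one, Fin.prod_univ_succ])

theorem density_hadE (s j : ℕ) (hj : 1 ≤ j) :
    Tendsto (fun X : ℕ =>
      (({N : ℕ | N ≤ X ∧ N.primeFactorsList.length = j ∧ HasHadE s N} : Set ℕ).ncard : ℝ) /
      (({N : ℕ | N ≤ X ∧ N.primeFactorsList.length = j} : Set ℕ).ncard : ℝ)) atTop (𝓝 0) := by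
  classical
  obtain ⟨k, rfl⟩ : ∃ k, j = k + 1 := ⟨j - 1, by omega⟩
  refine density_of_tuples (by omega) _ fun ε hε => ?_
  obtain ⟨F, hF, X₀, hX₀⟩ := avoidD k s ε hε
  refine ⟨X₀, fun X hX => le_trans ?_ (hX₀ X hX)⟩
  norm_cast
  refine card_le_card fun l hl => ?_
  rw [mem_filter] at hl ⊢
  refine ⟨hl.1, fun w hw hmem => ?_⟩
  obtain ⟨a1, a2, a3, -⟩ := rd_facts (hF w hw)
  exact excl_hadE a1 a3 a2 l (mem_LL.1 hl.1).1 hmem hl.2

end Pool.Agent.R116.Had
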