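import Mathlib
import Pool.Agent.W854.FA.App
import Pool.Agent.W114.HL.Full
import Pool.Agent.W12.HL.DH
import Pool.Agent.H634R3.WG.Lam
import Pool.Agent.R116.FewOrbits

set_option autoImplicit false

/-!
# Symmetric designs with many automorphisms of prime power order fixing an even number of points
-/

namespace Pool.Agent.R116.Hall

open Finset Filter Topology MulAction
open Pool.Agent.H951R4.OD Pool.Agent.H634R3.PPC Pool.Agent.H634R3.WG Pool.Agent.H634R3.WG.Lam
open Pool.Agent.W854.FA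

/-- the blocks `B i` form a symmetric design -/
structure SD (v k lam : ℕ) (B : Fin v → Finset (Fin v)) : Prop where
  two_le : 2 ≤ k
  lt : k < v
  size : ∀ i, (B i).card = k
  pair : ∀ x y : Fin v, x ≠ y →
    (Finset.univ.filter (fun i => x ∈ B i ∧ y ∈ B i)).card = lam

/-- For every prime divisor `q > s` of `v` some automorphism whose order is a power of `q` fixes an
even number of points. -/
def Ev (s v : ℕ) (B : Fin v → Finset (Fin v)) : Prop :=
  ∀ q : ℕ, q.Prime → s < q → q ∣ v → ∃ (σ : Equiv.Perm (Fin v)) (a : ℕ),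
    (∀ i, ∃ j, (B i).image σ = B j) ∧ σ ^ q ^ a = 1 ∧
      Even (Finset.univ.filter (fun x : Fin v => σ x = x)).card

/-- **The test.** -/
theorem fix_test_j {v k lam : ℕ} {B : Fin v → Finset (Fin v)} (hv : 2 ≤ v) (hlam : 1 ≤ lam)
    (hkv : k < v) (hk : ∀ i, (B i).card = k)
    (hpair : ∀ x y : Fin v, x ≠ y →
      (Finset.univ.filter (fun i => x ∈ B i ∧ y ∈ B i)).card = lam) (hodd : Odd v)
    {σ : Equiv.Perm (Fin v)} (haut : ∀ i, ∃ j, (B i).image σ = B j) {q a : ℕ} (hq : q.Prime)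
    (hq2 : q ≠ 2) (hσ : σ ^ (q ^ a) = 1)
    (heven : Even (univ.filter (fun x : Fin v => σ x = x)).card) {p : ℕ} (hp : p.Prime)
    (hpn : p ∣ k - lam) (hpn2 : ¬ p ^ 2 ∣ k - lam) {j : ℕ} (hj : (p : ZMod q) ^ j = -1) :
    False := by
  classical
  have hinj := blocks_inj hv hlam hkv hk hpair
  choose τ hτ using haut
  have hτi : Function.Injective τ := by
    intro i j hij
    apply hinj
    have h1 := hτ i
    rw [hij, ← hτ j] at h1
    exact Finset.image_injective σ.injective h1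
  obtain ⟨τe, hτe⟩ : ∃ τe : Equiv.Perm (Fin v), ∀ i, τe i = τ i :=
    ⟨Equiv.ofBijective τ (Finite.injective_iff_bijective.1 hτi), fun i => rfl⟩
  have hmem : (σ, τe) ∈ pairs B ⊤ := by
    refine ⟨Subgroup.mem_top _, ?_⟩
    intro z i
    show σ z ∈ B (τe i) ↔ z ∈ B i
    rw [hτe, ← hτ i, Finset.mem_image]
    constructor
    · rintro ⟨w, hw, hwz⟩
      rwa [← σ.injective hwz]
    · intro hz
      exact ⟨z, hz, rfl⟩
  obtain ⟨γ, hγ⟩ : ∃ γ : pairs B ⊤, γ = ⟨(σ, τe), hmem⟩ := ⟨_, rfl⟩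
  have : Fintype (pairs B ⊤) := Fintype.ofFinite _
  -- the order
  have hγq : γ ^ (q ^ a) = 1 := by
    have h1 : (γ ^ (q ^ a)).1.1 = 1 := by
      have : (γ ^ (q ^ a)).1.1 = σ ^ (q ^ a) := by
        rw [Subgroup.coe_pow, Prod.pow_fst, hγ]
      rw [this, hσ]
    apply Subtype.ext
    refine Prod.ext h1 ?_
    ext1 i
    apply hinj
    ext x
    have h2 := (γ ^ (q ^ a)).2.2 x i
    rw [h1] at h2
    exact h2
  have hγx : ∀ x : Fin v, γ • x = σ x := by
    intro x
    rw [hγ]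
    rfl
  have hq3 : 2 < q := lt_of_le_of_ne hq.two_le (Ne.symm hq2)
  have hsz : ∀ {X : Type} [Fintype X] [MulAction (pairs B ⊤) X]
      (α : orbitRel.Quotient (Subgroup.zpowers (γ ^ q)) X),
      ¬ p ∣ sz (Subgroup.zpowers (γ ^ q)) α := by
    intro X _ _ α h
    obtain ⟨i, hi⟩ := sz_pow hq hγq α
    rw [hi] at h
    have h1 := (Nat.prime_dvd_prime_iff_eq hp hq).1 (hp.dvd_of_dvd_pow h)
    subst h1
    have hF : Fact p.Prime := ⟨hp⟩
    have : Fact (2 < p) := ⟨hq3⟩
    rw [ZMod.natCast_self] at hj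
    rcases Nat.eq_zero_or_pos j with h0 | h0
    · rw [h0, pow_zero] at hj
      exact ZMod.neg_one_ne_one hj.symm
    · rw [zero_pow (by omega)] at hj
      have h3 : (1 : ZMod p) = 0 := by
        have := congrArg Neg.neg hj
        rw [neg_neg, neg_zero] at this
        exact this.symm
      exact one_ne_zero h3
  obtain ⟨u, hu⟩ := hpn
  refine orb_testw (des_blk hv hlam hkv hk hpair) ?_ (Subgroup.zpowers (γ ^ q))
    (nrm_zpowers γ q) hq hq3
    (Subgroup.mem_zpowers (γ ^ q)) hp (fun α _ => hsz α) (fun β _ => hsz β) ?_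
    (j := j) hj odd_one (u := u) ?_
    (by rw [pow_one]; exact hu)
  · intro g x b
    exact g.2.2 x b.i
  · have h1 : Odd (Fintype.card (Fin v)) := by
      rw [Fintype.card_fin]
      exact hodd
    have h2 : Even (univ.filter (fun x : Fin v => γ • x = x)).card := by
      simp only [hγx]
      exact heven
    have h3 := odd_moved hq hq2 hγq h1 (by convert h2)
    convert h3
  · rintro ⟨w, rfl⟩
    apply hpn2
    rw [hu]
    exact ⟨w, by ring⟩

theorem two_le_v {v k lam : ℕ} {B : Fin v → Finset (Fin v)} (h : SD v k lam B) : 2 ≤ v := by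
  have h1 := h.two_le
  have h2 := h.lt
  omega

theorem odd_of_ex {v k lam c r : ℕ} {B : Fin v → Finset (Fin v)} (h : SD v k lam B)
    (hlam : 1 ≤ lam) (hr : Ex c (k - lam) r) : Odd v := by
  by_contra he
  rw [Nat.not_odd_iff_even] at he
  exact Pool.Agent.W114.HL.not_square_of_ex hr
    (schutz_design (two_le_v h) hlam h.lt h.size h.pair he)

/-- the common test -/
theorem ev_test {v k lam s c r q j : ℕ} {B : Fin v → Finset (Fin v)} (h : SD v k lam B)
    (hlam : 1 ≤ lam) (he : Ev s v B) (hr : Ex c (k - lam) r) (hq : q.Prime) (hsq : s < q)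
    (hq2 : q ≠ 2) (hqv : q ∣ v) (hj : (r : ZMod q) ^ j = -1) : False := by
  obtain ⟨σ, a, haut, hσ, heven⟩ := he q hq hsq hqv
  exact fix_test_j (two_le_v h) hlam h.lt h.size h.pair (odd_of_ex h hlam hr) haut hq hq2 hσ
    heven hr.1 hr.2.2.1 hr.2.2.2 hj

/-! ## all `lam` -/

theorem lt_of_not_dvd_fac {a s q : ℕ} (hq : q.Prime) (h : ¬ q ∣ a * s.factorial) :
    s < q ∧ ¬ q ∣ a := by
  constructor
  · by_contra hcon
    push Not at hcon
    exact h (Dvd.dvd.mul_left (Nat.dvd_factorial hq.pos hcon) _)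
  · intro h1
    exact h (dvd_mul_of_dvd_left h1 _)

theorem passX_ev {v k lam s : ℕ} {B : Fin v → Finset (Fin v)} (h : SD v k lam B)
    (hlam : 1 ≤ lam) (he : Ev s v B) :
    PassX (fl lam) (cl lam * s.factorial) (k - lam) := by
  intro r q hr hq hqc hqf _ hch
  obtain ⟨hsq, hqc'⟩ := lt_of_not_dvd_fac hq hqc
  have hv := two_le_v h
  obtain ⟨hlk, -, -⟩ := design_facts hv hlam h.lt h.size h.pair
  obtain ⟨-, hcount⟩ := repl v k lam hv hlam B h.size h.pair
  have hq2 : q ≠ 2 := by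
    rintro rfl
    exact hqc' (by unfold cl; exact dvd_mul_of_dvd_left (dvd_mul_right 2 lam) _)
  have hql : ¬ q ∣ lam := fun h1 => hqc' (by
    unfold cl
    exact dvd_mul_of_dvd_left (dvd_mul_of_dvd_right h1 2) _)
  have hfl : fl lam (k - lam) = ((lam * v : ℕ) : ℤ) := by
    unfold fl
    have h1 : (k : ℤ) * k = lam * ((v - 1 : ℕ) : ℤ) + k := by exact_mod_cast hcount
    rw [Nat.cast_sub (by omega)] at h1
    rw [Nat.cast_sub hlk.le]
    push_cast at h1 ⊢
    nlinarith
  rw [hfl] at hqf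
  have hqv : q ∣ v := by
    have h1 : q ∣ lam * v := by exact_mod_cast hqf
    exact ((Nat.Prime.dvd_mul hq).1 h1).resolve_left hql
  exact ev_test h hlam he hr hq hsq hq2 hqv ((ch_eq_neg_one_iff r q hq hq2).1 hch)

/-- the block sizes of the symmetric designs with the property -/
def blk (s lam : ℕ) : Set ℕ :=
  {k : ℕ | ∃ (v : ℕ) (B : Fin v → Finset (Fin v)), SD v k lam B ∧ Ev s v B}

theorem count_all (lam s : ℕ) (hlam : 1 ≤ lam) (ε : ℝ) (hε : 0 < ε) :
    ∃ C : ℝ, 0 < C ∧ ∀ X : ℕ, 3 ≤ X →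
      ({k : ℕ | k ≤ X ∧ k ∈ blk s lam}.ncard : ℝ) ≤ C * X * (Real.log X) ^ (ε - 1) := by
  have hpol : PolX (fl lam) (cl lam * s.factorial) 1 (1 - 4 * (lam : ℤ)) := by
    apply Pool.Agent.R116.polX_mono (TaskPolX.taskPolX lam hlam) (dvd_mul_right _ _)
    have h1 := (TaskPolX.taskPolX lam hlam).pos
    exact Nat.mul_pos h1 (Nat.factorial_pos s)
  obtain ⟨C, hC, H⟩ := mainX _ _ _ _ hpol ε hε
  refine ⟨C, hC, fun X hX => le_trans ?_ (H X hX)⟩
  have hfin : {n : ℕ | 1 ≤ n ∧ n ≤ X ∧ PassX (fl lam) (cl lam * s.factorial) n}.Finite :=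
    (Set.finite_Iic X).subset fun n hn => hn.2.1
  have key : ∀ k : ℕ, k ∈ blk s lam →
      lam < k ∧ PassX (fl lam) (cl lam * s.factorial) (k - lam) := by
    rintro k ⟨v, B, hd, he⟩
    exact ⟨(design_facts (two_le_v hd) hlam hd.lt hd.size hd.pair).1, passX_ev hd hlam he⟩
  have h1 := Set.ncard_le_ncard_of_injOn (s := {k : ℕ | k ≤ X ∧ k ∈ blk s lam})
    (t := {n : ℕ | 1 ≤ n ∧ n ≤ X ∧ PassX (fl lam) (cl lam * s.factorial) n})
    (fun k => k - lam)
    (fun k hk => by
      obtain ⟨hkX, hk2⟩ := hk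
      obtain ⟨h1, h2⟩ := key k hk2
      exact ⟨by omega, by omega, h2⟩)
    (fun a ha b hb hab => by
      obtain ⟨h1, -⟩ := key a ha.2
      obtain ⟨h2, -⟩ := key b hb.2
      simp only at hab
      omega) hfin
  exact_mod_cast h1

/-! ## `lam` not a square -/

open Pool.Agent.W114.HL in
/-- the data with more excluded primes -/
noncomputable def datS (lam s : ℕ) (e : ℤ) : Pool.Agent.W114.HL.Dat :=
  { datH lam e with c0 := (2 * lam * (4 * lam - 1)) * s.factorial }

open Pool.Agent.W114.HL in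
theorem ax_datS {lam s : ℕ} {e : ℤ} (h : Ax (datH lam e)) : Ax (datS lam s e) := by
  have h0 : (datH lam e).c0 = 2 * lam * (4 * lam - 1) := rfl
  have hd : (datH lam e).c0 ∣ (datS lam s e).c0 := by
    rw [h0]
    exact dvd_mul_right _ _
  have hn : ∀ q : ℕ, ¬ q ∣ (datS lam s e).c0 → ¬ q ∣ (datH lam e).c0 :=
    fun q hq h1 => hq (h1.trans hd)
  exact
    { c0_pos := Nat.mul_pos h.c0_pos (Nat.factorial_pos s)
      two := h.two.trans hd
      e01 := h.e01
      neg := h.neg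
      κ1 := h.κ1
      τ1 := h.τ1
      β01 := h.β01
      rho_low := fun q hq hqc => h.rho_low q hq (hn q hqc)
      rho_up := h.rho_up
      per := h.per
      nz := fun q n hq hqc => h.nz q n hq (hn q hqc)
      cnt := fun q hq hqc => h.cnt q hq (hn q hqc)
      mert := h.mert
      bad := h.bad
      fixQ := fun q g hq hqc => h.fixQ q g hq (hn q hqc)
      mertQ := h.mertQ }

open Pool.Agent.W114.HL in
theorem pass_ev {v k lam s : ℕ} {B : Fin v → Finset (Fin v)} (h : SD v k lam B)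
    (hlam : 1 ≤ lam) (he : Ev s v B) : Pass (datS lam s (sgn v)) (k - lam) := by
  have hv := two_le_v h
  obtain ⟨hlk, -, -⟩ := design_facts hv hlam h.lt h.size h.pair
  obtain ⟨hrep, hcount⟩ := repl v k lam hv hlam B h.size h.pair
  refine ⟨?_, ?_⟩
  · intro r q j hE hq hqc hT hj
    obtain ⟨hsq, hqc'⟩ := lt_of_not_dvd_fac hq hqc
    have hq2 : q ≠ 2 := by
      rintro rfl
      exact hqc' (dvd_mul_of_dvd_left (dvd_mul_right 2 lam) _)
    have hql : ¬ q ∣ lam := fun h1 =>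
      hqc' (dvd_mul_of_dvd_left (dvd_mul_of_dvd_right h1 2) _)
    obtain ⟨hT1, -⟩ := hT
    rw [poly_val (by omega) hlk.le hlam hcount] at hT1
    have hqv : q ∣ v := ((Nat.Prime.dvd_mul hq).1 hT1).resolve_left hql
    exact ev_test h hlam he hE hq hsq hq2 hqv hj
  · intro _ p hE
    have hpc := hE.2.1
    obtain ⟨-, hpc'⟩ := lt_of_not_dvd_fac hE.1 hpc
    have hp2 : p ≠ 2 := by
      rintro rfl
      exact hpc' (dvd_mul_of_dvd_left (dvd_mul_right 2 lam) _)
    have hpl : ¬ p ∣ lam := fun h1 =>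
      hpc' (dvd_mul_of_dvd_left (dvd_mul_of_dvd_right h1 2) _)
    have hd : Pool.Agent.H177R2.SD.IsSymmetricDesign v k lam :=
      ⟨h.lt, k, B, h.size, hrep, h.pair⟩
    have hkv2 : k + 2 ≤ v := by
      by_contra hc
      have h1 : v = k + 1 := by
        have := h.lt
        omega
      rw [h1, Nat.add_sub_cancel] at hcount
      have h2 : k = lam + 1 := by
        have h3 : k * k = (lam + 1) * k := by rw [hcount]; ring
        exact Nat.eq_of_mul_eq_mul_right (by omega) h3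
      have h3 := hE.2.2.1
      rw [h2] at h3
      simp only [Nat.add_sub_cancel_left, Nat.dvd_one] at h3
      exact hE.1.one_lt.ne' h3
    exact brc_ch hd h.two_le hkv2 hE.1 hp2 hE.2.2.1 hE.2.2.2 hpl

open Pool.Agent.W114.HL in
theorem count_nsq (lam s : ℕ) (hlam : 1 ≤ lam) (hsq : ¬ IsSquare lam) (ε : ℝ) (hε : 0 < ε) :
    ∃ C : ℝ, 0 < C ∧ ∀ X : ℕ, 3 ≤ X →
      ({k : ℕ | k ≤ X ∧ k ∈ blk s lam}.ncard : ℝ) ≤ C * X * (Real.log X) ^ (ε - 9 / 8) := by
  have hl : 2 ≤ lam := by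
    rcases Nat.lt_or_ge lam 2 with h | h
    · exfalso
      have : lam = 1 := by omega
      exact hsq ⟨1, by omega⟩
    · exact h
  have dh := Pool.Agent.W12.HL.dh Pool.Agent.W114.HL.dm
  have hx : ∀ e : ℤ, (3 : ℝ) / 2 ≤ (datS lam s e).τ + (datS lam s e).β / 2 := by
    intro e
    have h1 : (datS lam s e).τ = 1 := rfl
    have h2 : (datS lam s e).β = 1 := rfl
    rw [h1, h2]
    norm_num
  obtain ⟨C1, hC1, H1⟩ := Pool.Agent.W114.HL.main (datS lam s 1)
    (ax_datS (dh lam hl hsq 1 (Or.inl rfl))) (hx 1) ε hε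
  obtain ⟨C2, hC2, H2⟩ := Pool.Agent.W114.HL.main (datS lam s (-1))
    (ax_datS (dh lam hl hsq (-1) (Or.inr rfl))) (hx _) ε hε
  refine ⟨C1 + C2, by positivity, fun X hX => ?_⟩
  have hfin : ∀ e : ℤ, {n : ℕ | 1 ≤ n ∧ n ≤ X ∧ Pass (datS lam s e) n}.Finite := fun e =>
    (Set.finite_Iic X).subset fun n hn => hn.2.1
  have hA : ∀ k ∈ blk s lam, lam < k ∧ (Pass (datS lam s 1) (k - lam) ∨
      Pass (datS lam s (-1)) (k - lam)) := by
    rintro k ⟨v, B, hd, he⟩
    refine ⟨(design_facts (two_le_v hd) hlam hd.lt hd.size hd.pair).1, ?_⟩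
    have h1 := pass_ev hd hlam he
    rcases sgn_cases v with h2 | h2
    · left
      rwa [h2] at h1
    · right
      rwa [h2] at h1
  have h1 := Set.ncard_le_ncard_of_injOn (s := {k : ℕ | k ≤ X ∧ k ∈ blk s lam})
    (t := {n : ℕ | 1 ≤ n ∧ n ≤ X ∧ Pass (datS lam s 1) n} ∪
      {n : ℕ | 1 ≤ n ∧ n ≤ X ∧ Pass (datS lam s (-1)) n})
    (fun k => k - lam)
    (fun k hk => by
      obtain ⟨hkX, hk2⟩ := hk
      obtain ⟨h1, h2⟩ := hA k hk2
      rcases h2 with h2 | h2
      · left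
        exact ⟨by omega, by omega, h2⟩
      · right
        exact ⟨by omega, by omega, h2⟩)
    (fun a ha b hb hab => by
      obtain ⟨h1, -⟩ := hA a ha.2
      obtain ⟨h2, -⟩ := hA b hb.2
      simp only at hab
      omega) ((hfin 1).union (hfin (-1)))
  have h2 := h1.trans (Set.ncard_union_le _ _)
  have h3 : (({k : ℕ | k ≤ X ∧ k ∈ blk s lam}.ncard : ℕ) : ℝ) ≤
      ({n : ℕ | 1 ≤ n ∧ n ≤ X ∧ Pass (datS lam s 1) n}.ncard : ℝ) +
      ({n : ℕ | 1 ≤ n ∧ n ≤ X ∧ Pass (datS lam s (-1)) n}.ncard : ℝ) := by exact_mod_cast h2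
  have h4 := H1 X hX
  have h5 := H2 X hX
  calc _ ≤ _ := h3
    _ ≤ _ := add_le_add h4 h5
    _ = _ := by ring

theorem summable_nsq (lam s : ℕ) (hlam : 1 ≤ lam) (hsq : ¬ IsSquare lam) :
    Summable ((blk s lam).indicator (fun k : ℕ => 1 / (k : ℝ))) := by
  obtain ⟨C, -, h⟩ := count_nsq lam s hlam hsq (1 / 16) (by norm_num)
  refine Pool.Agent.W114.HL.summable_of_count (C := C) (a := 17 / 16) (by norm_num) ?_
  intro X hX
  have h2 := h X hX
  norm_num at h2 ⊢
  exact h2

/-! ## groups -/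

/-- few orbits and small stabilizers -/
theorem ev_few {v t : ℕ} {B : Fin v → Finset (Fin v)} (hv : 2 ≤ v)
    (H : Subgroup (Equiv.Perm (Fin v)))
    (haut : ∀ h ∈ H, ∀ i, ∃ j, (B i).image h = B j)
    (ho : Nat.card (MulAction.orbitRel.Quotient H (Fin v)) ≤ t)
    (hs : ∀ x : Fin v, Nat.card (MulAction.stabilizer H x) ≤ t) :
    Ev (t * t.factorial) v B := by
  classical
  intro q hq hqt hqv
  have : Fact q.Prime := ⟨hq⟩
  have hP : Nonempty (Fin v) := ⟨⟨0, by omega⟩⟩
  have h1 : q ∣ Nat.card H := Pool.Agent.R116.dvd_group ho hs hq hqt hP (by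
    rw [Nat.card_eq_fintype_card, Fintype.card_fin]
    exact hqv)
  obtain ⟨g, hg⟩ := exists_prime_orderOf_dvd_card' (G := H) q h1
  have ht : t ≤ t * t.factorial := Nat.le_mul_of_pos_right _ (Nat.factorial_pos t)
  refine ⟨g.1, 1, fun i => haut g.1 g.2 i, ?_, ?_⟩
  · have hgq : g ^ q = 1 := by rw [← hg, pow_orderOf_eq_one]
    rw [pow_one]
    have := congrArg Subtype.val hgq
    simpa using this
  · have h2 : (Finset.univ.filter (fun x : Fin v => g.1 x = x)) = ∅ := by
      apply Finset.filter_eq_empty_iff.2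
      intro x _ hx
      have h2 : orderOf (⟨g, hx⟩ : MulAction.stabilizer H x) = q := by
        rw [← hg]
        exact Subgroup.orderOf_mk g hx
      have h3 : q ∣ Nat.card (MulAction.stabilizer H x) := by
        rw [← h2]
        exact orderOf_dvd_natCard _
      have h4 := Nat.le_of_dvd Nat.card_pos h3
      have h5 := hs x
      omega
    rw [h2]
    simp

/-- transitive groups -/
theorem ev_trans {v t : ℕ} {B : Fin v → Finset (Fin v)}
    (H : Subgroup (Equiv.Perm (Fin v)))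
    (haut : ∀ h ∈ H, ∀ i, ∃ j, (B i).image h = B j)
    (htr : ∀ x y : Fin v, ∃ h ∈ H, h x = y)
    (hs : ∀ q : ℕ, q.Prime → q ∣ v → ∀ x : Fin v, q ∣ Nat.card (MulAction.stabilizer H x) → q ≤ t) :
    Ev t v B := by
  classical
  intro q hq hqt hqv
  have hF : Fact q.Prime := ⟨hq⟩
  rcases Nat.eq_zero_or_pos v with h0 | h0
  · subst h0
    refine ⟨1, 0, fun i => i.elim0, by simp, ?_⟩
    simp
  let x0 : Fin v := ⟨0, h0⟩
  have horb : MulAction.orbit H x0 = Set.univ := by
    ext y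
    simp only [Set.mem_univ, iff_true]
    obtain ⟨h, hh, hy⟩ := htr x0 y
    exact ⟨⟨h, hh⟩, hy⟩
  have h1 : Nat.card (MulAction.orbit H x0) * Nat.card (MulAction.stabilizer H x0) =
      Nat.card H := by
    rw [← Nat.card_prod]
    exact Nat.card_congr (MulAction.orbitProdStabilizerEquivGroup H x0)
  have h2 : Nat.card (MulAction.orbit H x0) = v := by
    rw [horb, Nat.card_univ, Nat.card_eq_fintype_card, Fintype.card_fin]
  rw [h2] at h1
  obtain ⟨g, hg⟩ := exists_prime_orderOf_dvd_card' (G := H) q (by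
    rw [← h1]
    exact dvd_mul_of_dvd_left hqv _)
  refine ⟨g.1, 1, fun i => haut g.1 g.2 i, ?_, ?_⟩
  · have hgq : g ^ q = 1 := by rw [← hg, pow_orderOf_eq_one]
    rw [pow_one]
    have := congrArg Subtype.val hgq
    simpa using this
  · have h2 : (Finset.univ.filter (fun x : Fin v => g.1 x = x)) = ∅ := by
      apply Finset.filter_eq_empty_iff.2
      intro x _ hx
      have h2 : orderOf (⟨g, hx⟩ : MulAction.stabilizer H x) = q := by
        rw [← hg]
        exact Subgroup.orderOf_mk g hx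
      have h3 : q ∣ Nat.card (MulAction.stabilizer H x) := by
        rw [← h2]
        exact orderOf_dvd_natCard _
      have h4 := hs q hq hqv x h3
      omega
    rw [h2]
    simp

theorem Ev.mono {s s' v : ℕ} {B : Fin v → Finset (Fin v)} (h : Ev s v B) (hs : s ≤ s') :
    Ev s' v B := fun q hq hsq hqv => h q hq (by omega) hqv

end Pool.Agent.R116.Hall
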