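import Pool.Agent.R116.SingPow

set_option autoImplicit false

/-!
# Difference sets with Singer parameters `(n ^ i, m)`: finite unions over the divisors of `m`
-/

namespace Pool.Agent.R116.SP

open Finset Filter Topology
open Pool.Agent.H771R2.SingerDS

theorem cntK {i : ℕ} (hi : Odd i) (K : ℕ) (ε : ℝ) (hε : 0 < ε) :
    ∃ C : ℝ, 0 < C ∧ ∀ X : ℕ, 3 ≤ X →
      ({n : ℕ | 2 ≤ n ∧ n ≤ X ∧
        ∃ m : ℕ, Odd m ∧ 3 ≤ m ∧ m.minFac ≤ K ∧ HasSinger (n ^ i) m}.ncard : ℝ) ≤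
      C * X * (Real.log X) ^ (ε - 1) := by
  classical
  have h : ∀ L : ℕ, ∃ C : ℝ, 0 < C ∧ ((Odd L ∧ 3 ≤ L) → ∀ X : ℕ, 3 ≤ X →
      ({n : ℕ | 2 ≤ n ∧ n ≤ X ∧
        ∃ m : ℕ, Odd m ∧ 3 ≤ m ∧ L ∣ m ∧ HasSinger (n ^ i) m}.ncard : ℝ) ≤
      C * X * (Real.log X) ^ (ε - 1)) := by
    intro L
    by_cases hL : Odd L ∧ 3 ≤ L
    · obtain ⟨C, hC, H⟩ := cnt1 hi hL.1 hL.2 ε hε
      exact ⟨C, hC, fun _ => H⟩
    · exact ⟨1, one_pos, fun h => absurd h hL⟩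
  choose C hC H using h
  set S := (Finset.range (K + 1)).filter (fun L => Odd L ∧ 3 ≤ L) with hS
  refine ⟨∑ L ∈ S, C L + 1, by
    have : 0 ≤ ∑ L ∈ S, C L := Finset.sum_nonneg fun L _ => (hC L).le
    linarith, fun X hX => ?_⟩
  set A : ℕ → Set ℕ := fun L => {n : ℕ | 2 ≤ n ∧ n ≤ X ∧
        ∃ m : ℕ, Odd m ∧ 3 ≤ m ∧ L ∣ m ∧ HasSinger (n ^ i) m} with hA
  have hAfin : ∀ L, (A L).Finite := fun L => (Set.finite_le_nat X).subset fun _ hp => hp.2.1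
  have hlog : 0 ≤ (X : ℝ) * (Real.log X) ^ (ε - 1) :=
    mul_nonneg (Nat.cast_nonneg _) (Real.rpow_nonneg (Real.log_natCast_nonneg X) _)
  have h1 : ({n : ℕ | 2 ≤ n ∧ n ≤ X ∧
        ∃ m : ℕ, Odd m ∧ 3 ≤ m ∧ m.minFac ≤ K ∧ HasSinger (n ^ i) m}.ncard : ℝ) ≤
      ∑ L ∈ S, ((A L).ncard : ℝ) := by
    have h2 : {n : ℕ | 2 ≤ n ∧ n ≤ X ∧
        ∃ m : ℕ, Odd m ∧ 3 ≤ m ∧ m.minFac ≤ K ∧ HasSinger (n ^ i) m} ⊆
        ((S.biUnion fun L => (hAfin L).toFinset : Finset ℕ) : Set ℕ) := by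
      rintro n ⟨hn2, hnX, m, hm, hm3, hK, hSi⟩
      have hp : m.minFac.Prime := Nat.minFac_prime (by omega)
      have hd : m.minFac ∣ m := Nat.minFac_dvd m
      have ho : Odd m.minFac := Odd.of_dvd_nat hm hd
      have h3 : 3 ≤ m.minFac := by
        have h2 := hp.two_le
        obtain ⟨c, hc⟩ := ho
        omega
      rw [Finset.mem_coe, Finset.mem_biUnion]
      refine ⟨m.minFac, ?_, ?_⟩
      · rw [hS, Finset.mem_filter, Finset.mem_range]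
        exact ⟨by omega, ho, h3⟩
      · rw [Set.Finite.mem_toFinset]
        exact ⟨hn2, hnX, m, hm, hm3, hd, hSi⟩
    have h3 := Set.ncard_le_ncard h2 (Finset.finite_toSet _)
    rw [Set.ncard_coe_finset] at h3
    have h4 := h3.trans Finset.card_biUnion_le
    have h5 : ∀ L, (hAfin L).toFinset.card = (A L).ncard := fun L =>
      (Set.ncard_eq_toFinset_card _ (hAfin L)).symm
    simp only [h5] at h4
    exact_mod_cast h4
  refine h1.trans ?_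
  calc ∑ L ∈ S, ((A L).ncard : ℝ) ≤ ∑ L ∈ S, C L * X * (Real.log X) ^ (ε - 1) := by
        refine Finset.sum_le_sum fun L hL => ?_
        rw [hS, Finset.mem_filter] at hL
        exact H L hL.2 X hX
    _ = (∑ L ∈ S, C L) * (X * (Real.log X) ^ (ε - 1)) := by
        rw [Finset.sum_mul]
        exact Finset.sum_congr rfl fun L _ => by ring
    _ ≤ (∑ L ∈ S, C L + 1) * (X * (Real.log X) ^ (ε - 1)) :=
        mul_le_mul_of_nonneg_right (by linarith) hlog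
    _ = _ := by ring

theorem appK {i : ℕ} (hi : Odd i) (K : ℕ) :
    Tendsto (fun X : ℕ => ({n : ℕ | 2 ≤ n ∧ n ≤ X ∧ ¬ IsPrimePow n ∧
      ∃ m L : ℕ, Odd m ∧ 3 ≤ L ∧ L ≤ K ∧ L ∣ m ∧ Cond i L n m ∧ HasSinger (n ^ i) m}.ncard : ℝ) *
        Real.log X / X) atTop (𝓝 0) := by
  classical
  set S := (Finset.range (K + 1)).filter (fun L => Odd L ∧ 3 ≤ L) with hS
  set A : ℕ → ℕ → Set ℕ := fun L X => {n : ℕ | 2 ≤ n ∧ n ≤ X ∧ ¬ IsPrimePow n ∧
        ∃ m : ℕ, Odd m ∧ 3 ≤ m ∧ L ∣ m ∧ Cond i L n m ∧ HasSinger (n ^ i) m} with hA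
  have hAfin : ∀ L X, (A L X).Finite := fun L X =>
    (Set.finite_le_nat X).subset fun _ hp => hp.2.1
  have hlim : Tendsto (fun X : ℕ => ∑ L ∈ S, (((A L X).ncard : ℝ) * Real.log X / X)) atTop
      (𝓝 0) := by
    rw [show (0 : ℝ) = ∑ L ∈ S, (0 : ℝ) by simp]
    refine tendsto_finsetSum _ fun L hL => ?_
    rw [hS, Finset.mem_filter] at hL
    exact app1 hi hL.2.1 hL.2.2
  refine squeeze_zero (fun X => ?_) (fun X => ?_) hlim
  · exact div_nonneg (mul_nonneg (Nat.cast_nonneg _) (Real.log_natCast_nonneg X))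
      (Nat.cast_nonneg _)
  · have h1 : ({n : ℕ | 2 ≤ n ∧ n ≤ X ∧ ¬ IsPrimePow n ∧
      ∃ m L : ℕ, Odd m ∧ 3 ≤ L ∧ L ≤ K ∧ L ∣ m ∧ Cond i L n m ∧
        HasSinger (n ^ i) m}.ncard : ℝ) ≤ ∑ L ∈ S, ((A L X).ncard : ℝ) := by
      have h2 : {n : ℕ | 2 ≤ n ∧ n ≤ X ∧ ¬ IsPrimePow n ∧
          ∃ m L : ℕ, Odd m ∧ 3 ≤ L ∧ L ≤ K ∧ L ∣ m ∧ Cond i L n m ∧ HasSinger (n ^ i) m} ⊆
          ((S.biUnion fun L => (hAfin L X).toFinset : Finset ℕ) : Set ℕ) := by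
        rintro n ⟨hn2, hnX, hnp, m, L, hm, hL3, hLK, hLm, hC, hSi⟩
        have ho : Odd L := Odd.of_dvd_nat hm hLm
        rw [Finset.mem_coe, Finset.mem_biUnion]
        refine ⟨L, ?_, ?_⟩
        · rw [hS, Finset.mem_filter, Finset.mem_range]
          exact ⟨by omega, ho, hL3⟩
        · rw [Set.Finite.mem_toFinset]
          exact ⟨hn2, hnX, hnp, m, hm, hL3.trans (Nat.le_of_dvd hm.pos hLm), hLm, hC, hSi⟩
      have h3 := Set.ncard_le_ncard h2 (Finset.finite_toSet _)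
      rw [Set.ncard_coe_finset] at h3
      have h4 := h3.trans Finset.card_biUnion_le
      have h5 : ∀ L, (hAfin L X).toFinset.card = (A L X).ncard := fun L =>
        (Set.ncard_eq_toFinset_card _ (hAfin L X)).symm
      simp only [h5] at h4
      exact_mod_cast h4
    calc _ ≤ (∑ L ∈ S, ((A L X).ncard : ℝ)) * Real.log X / X :=
          div_le_div_of_nonneg_right
            (mul_le_mul_of_nonneg_right h1 (Real.log_natCast_nonneg X)) (Nat.cast_nonneg _)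
      _ = _ := by
          rw [Finset.sum_mul, Finset.sum_div]

end Pool.Agent.R116.SP
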