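import Pool.Agent.R116.HallFew
import Pool.Agent.R116.SingPow2

set_option autoImplicit false

/-!
# Symmetric designs with the parameters of projective spaces
-/

namespace Pool.Agent.R116.PG

open Finset Filter Topology MulAction
open Pool.Agent.H951R4.OD (ch PI Ex)
open Pool.Agent.W114.PQ (Dat Pass ex_split finX squeeze)
open Pool.Agent.Y346.SG
open Pool.Agent.H634R3.PPC Pool.Agent.H634R3.WG Pool.Agent.H634R3.WG.Lam
open Pool.Agent.W854.FA
open Pool.Agent.R116.Hall Pool.Agent.R116.SP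

/-- **The test.** -/
theorem fix_test_e {v k lam : ℕ} {B : Fin v → Finset (Fin v)} (hv : 2 ≤ v) (hlam : 1 ≤ lam)
    (hkv : k < v) (hk : ∀ i, (B i).card = k)
    (hpair : ∀ x y : Fin v, x ≠ y →
      (Finset.univ.filter (fun i => x ∈ B i ∧ y ∈ B i)).card = lam) (hodd : Odd v)
    {σ : Equiv.Perm (Fin v)} (haut : ∀ i, ∃ j, (B i).image σ = B j) {q a : ℕ} (hq : q.Prime)
    (hq2 : q ≠ 2) (hσ : σ ^ (q ^ a) = 1)
    (heven : Even (univ.filter (fun x : Fin v => σ x = x)).card) {p : ℕ} (hp : p.Prime)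
    {e u : ℕ} (he : Odd e) (hu : ¬ p ∣ u) (hN : k - lam = p ^ e * u)
    {j : ℕ} (hj : (p : ZMod q) ^ j = -1) :
    False := by
  classical
  have hinj := blocks_inj hv hlam hkv hk hpair
  choose τ hτ using haut
  have hτi : Function.Injective τ := by
    intro i j hij
    apply hinj
    have h1 := hτ i
    rw [hij, ← hτ j] at h1
    exact Finset.image_injective σ.injective h1
  obtain ⟨τe, hτe⟩ : ∃ τe : Equiv.Perm (Fin v), ∀ i, τe i = τ i :=
    ⟨Equiv.ofBijective τ (Finite.injective_iff_bijective.1 hτi), fun i => rfl⟩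
  have hmem : (σ, τe) ∈ pairs B ⊤ := by
    refine ⟨Subgroup.mem_top _, ?_⟩
    intro z i
    show σ z ∈ B (τe i) ↔ z ∈ B i
    rw [hτe, ← hτ i, Finset.mem_image]
    constructor
    · rintro ⟨w, hw, hwz⟩
      rwa [← σ.injective hwz]
    · intro hz
      exact ⟨z, hz, rfl⟩
  obtain ⟨γ, hγ⟩ : ∃ γ : pairs B ⊤, γ = ⟨(σ, τe), hmem⟩ := ⟨_, rfl⟩
  have : Fintype (pairs B ⊤) := Fintype.ofFinite _
  -- the order
  have hγq : γ ^ (q ^ a) = 1 := by
    have h1 : (γ ^ (q ^ a)).1.1 = 1 := by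
      have : (γ ^ (q ^ a)).1.1 = σ ^ (q ^ a) := by
        rw [Subgroup.coe_pow, Prod.pow_fst, hγ]
      rw [this, hσ]
    apply Subtype.ext
    refine Prod.ext h1 ?_
    ext1 i
    apply hinj
    ext x
    have h2 := (γ ^ (q ^ a)).2.2 x i
    rw [h1] at h2
    exact h2
  have hγx : ∀ x : Fin v, γ • x = σ x := by
    intro x
    rw [hγ]
    rfl
  have hq3 : 2 < q := lt_of_le_of_ne hq.two_le (Ne.symm hq2)
  have hsz : ∀ {X : Type} [Fintype X] [MulAction (pairs B ⊤) X]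
      (α : orbitRel.Quotient (Subgroup.zpowers (γ ^ q)) X),
      ¬ p ∣ sz (Subgroup.zpowers (γ ^ q)) α := by
    intro X _ _ α h
    obtain ⟨i, hi⟩ := sz_pow hq hγq α
    rw [hi] at h
    have h1 := (Nat.prime_dvd_prime_iff_eq hp hq).1 (hp.dvd_of_dvd_pow h)
    subst h1
    have hF : Fact p.Prime := ⟨hp⟩
    have : Fact (2 < p) := ⟨hq3⟩
    rw [ZMod.natCast_self] at hj
    rcases Nat.eq_zero_or_pos j with h0 | h0
    · rw [h0, pow_zero] at hj
      exact ZMod.neg_one_ne_one hj.symm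
    · rw [zero_pow (by omega)] at hj
      have h3 : (1 : ZMod p) = 0 := by
        have := congrArg Neg.neg hj
        rw [neg_neg, neg_zero] at this
        exact this.symm
      exact one_ne_zero h3
  refine orb_testw (des_blk hv hlam hkv hk hpair) ?_ (Subgroup.zpowers (γ ^ q))
    (nrm_zpowers γ q) hq hq3
    (Subgroup.mem_zpowers (γ ^ q)) hp (fun α _ => hsz α) (fun β _ => hsz β) ?_
    (j := j) hj he (u := u) hu hN
  · intro g x b
    exact g.2.2 x b.i
  · have h1 : Odd (Fintype.card (Fin v)) := by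
      rw [Fintype.card_fin]
      exact hodd
    have h2 : Even (univ.filter (fun x : Fin v => γ • x = x)).card := by
      simp only [hγx]
      exact heven
    have h3 := odd_moved hq hq2 hγq h1 (by convert h2)
    convert h3

/-! ## the parameters -/

theorem geom_eq {n m v : ℕ} (hn : 2 ≤ n) (h : v * (n - 1) = n ^ m - 1) :
    v = ∑ i ∈ range m, n ^ i := by
  have h2 : (∑ i ∈ range m, n ^ i) * (n - 1) = n ^ m - 1 := by
    exact Nat.geomSum_eq (by omega) m ▸ (Nat.div_mul_cancel (by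
      simpa using Nat.sub_dvd_pow_sub_pow n 1 m))
  rw [← h2] at h
  exact Nat.eq_of_mul_eq_mul_right (by omega) h

theorem geom_odd {n m : ℕ} (hm : Odd m) : Odd (∑ i ∈ range m, n ^ i) := by
  obtain ⟨c, rfl⟩ := hm
  rw [sum_range_succ']
  rcases Nat.even_or_odd n with hn | hn
  · have : Even (∑ i ∈ range (2 * c), n ^ (i + 1)) := by
      refine Finset.even_sum _ fun i _ => ?_
      exact hn.pow_of_ne_zero (by omega)
    rw [pow_zero]
    exact this.add_one
  · have : Even (∑ i ∈ range (2 * c), n ^ (i + 1)) := by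
      rw [Finset.even_sum_iff_even_card_odd]
      have h1 : ((range (2 * c)).filter (fun i => Odd (n ^ (i + 1)))) = range (2 * c) :=
        filter_true_of_mem fun i _ => hn.pow
      rw [h1, card_range]
      exact even_two_mul c
    rw [pow_zero]
    exact this.add_one

theorem order_eq {n m k lam : ℕ} (hn : 2 ≤ n) (hm : 3 ≤ m) (hk : k * (n - 1) = n ^ (m - 1) - 1)
    (hl : lam * (n - 1) = n ^ (m - 2) - 1) : k - lam = n ^ (m - 2) ∧ 1 ≤ lam := by
  have h1 : 1 ≤ n ^ (m - 2) := Nat.one_le_pow _ _ (by omega)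
  constructor
  · apply Nat.eq_of_mul_eq_mul_right (by omega : 0 < n - 1)
    rw [Nat.sub_mul, hk, hl, Nat.mul_sub, mul_one, ← pow_succ]
    have e : m - 2 + 1 = m - 1 := by omega
    rw [e]
    omega
  · rcases Nat.eq_zero_or_pos lam with h0 | h0
    · rw [h0, zero_mul] at hl
      have h2 : 2 ≤ n ^ (m - 2) := by
        calc 2 ≤ n := hn
          _ = n ^ 1 := (pow_one n).symm
          _ ≤ n ^ (m - 2) := Nat.pow_le_pow_right (by omega) (by omega)
      omega
    · exact h0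

theorem lt_eq {n m k v : ℕ} (hn : 2 ≤ n) (hm : 3 ≤ m) (hv : v * (n - 1) = n ^ m - 1)
    (hk : k * (n - 1) = n ^ (m - 1) - 1) : k < v := by
  have h1 : 1 ≤ n ^ (m - 1) := Nat.one_le_pow _ _ (by omega)
  have h2 : n ^ (m - 1) < n ^ m := Nat.pow_lt_pow_right (by omega) (by omega)
  have h3 : k * (n - 1) < v * (n - 1) := by
    rw [hv, hk]
    omega
  exact lt_of_mul_lt_mul_right h3 (Nat.zero_le _)

/-- the blocks form a symmetric design with the parameters of a projective space -/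
structure PGD (n m v : ℕ) (B : Fin v → Finset (Fin v)) : Prop where
  hv : v * (n - 1) = n ^ m - 1
  size : ∀ i, (B i).card * (n - 1) = n ^ (m - 1) - 1
  pair : ∀ x y : Fin v, x ≠ y →
    (Finset.univ.filter (fun i => x ∈ B i ∧ y ∈ B i)).card * (n - 1) = n ^ (m - 2) - 1

/-- such a design exists with `Ev s` -/
def HasPG (s n m : ℕ) : Prop :=
  ∃ (v : ℕ) (B : Fin v → Finset (Fin v)), PGD n m v B ∧ Ev s v B

theorem PGD.facts {n m v : ℕ} {B : Fin v → Finset (Fin v)} (h : PGD n m v B) (hn : 2 ≤ n)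
    (hm3 : 3 ≤ m) :
    ∃ k lam, 2 ≤ v ∧ 1 ≤ lam ∧ k < v ∧ (∀ i, (B i).card = k) ∧
      (∀ x y : Fin v, x ≠ y → (Finset.univ.filter (fun i => x ∈ B i ∧ y ∈ B i)).card = lam) ∧
      k - lam = n ^ (m - 2) ∧ v = ∑ i ∈ range m, n ^ i := by
  have hV := geom_eq hn h.hv
  have hv2 : 2 ≤ v := by
    rw [hV]
    calc 2 ≤ n ^ 0 + n ^ 1 := by rw [pow_zero, pow_one]; omega
      _ = ∑ i ∈ range 2, n ^ i := by rw [sum_range_succ, sum_range_one]
      _ ≤ ∑ i ∈ range m, n ^ i :=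
          sum_le_sum_of_subset (range_mono (by omega))
  have h0 : 0 < v := by omega
  have h1 : 1 < v := by omega
  set x0 : Fin v := ⟨0, h0⟩
  set x1 : Fin v := ⟨1, h1⟩
  have hne : x0 ≠ x1 := by
    intro e
    have := congrArg Fin.val e
    simp [x0, x1] at this
  have hk := h.size x0
  have hl := h.pair x0 x1 hne
  obtain ⟨ho, hlam⟩ := order_eq hn hm3 hk hl
  refine ⟨(B x0).card, (Finset.univ.filter (fun i => x0 ∈ B i ∧ x1 ∈ B i)).card, hv2, hlam,
    lt_eq hn hm3 h.hv hk, ?_, ?_, ho, hV⟩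
  · intro i
    exact Nat.eq_of_mul_eq_mul_right (by omega : 0 < n - 1) ((h.size i).trans hk.symm)
  · intro x y hxy
    exact Nat.eq_of_mul_eq_mul_right (by omega : 0 < n - 1) ((h.pair x y hxy).trans hl.symm)

/-- the test for designs with the parameters of projective spaces -/
theorem excl_pg {s n m : ℕ} (hn : 2 ≤ n) (hm : Odd m) (hm3 : 3 ≤ m) (h : HasPG s n m)
    {q r j a u : ℕ} (hq : q.Prime) (hsq : s < q) (hqV : q ∣ ∑ i ∈ range m, n ^ i)
    (hr : r.Prime) (hj : (r : ZMod q) ^ j = -1) (ha : Odd a) (hu : ¬ r ∣ u)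
    (hnu : n = r ^ a * u) : False := by
  obtain ⟨v, B, hd, hEv⟩ := h
  obtain ⟨k, lam, hv2, hlam, hkv, hk, hpair, ho, hV⟩ := hd.facts hn hm3
  rw [← hV] at hqV
  have hodd : Odd v := by
    rw [hV]
    exact geom_odd hm
  have hq2 : q ≠ 2 := by
    rintro rfl
    exact (Nat.not_even_iff_odd.2 hodd) (even_iff_two_dvd.2 hqV)
  obtain ⟨σ, b, haut, hσ, heven⟩ := hEv q hq hsq hqV
  have hodd2 : Odd (m - 2) := by
    obtain ⟨c, hc⟩ := hm
    exact ⟨c - 1, by omega⟩
  refine fix_test_e hv2 hlam hkv hk hpair hodd haut hq hq2 hσ heven hr (e := a * (m - 2))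
    (u := u ^ (m - 2)) (ha.mul hodd2) (fun h1 => hu (hr.dvd_of_dvd_pow h1)) ?_ hj
  rw [ho, hnu, mul_pow, ← pow_mul]

/-! ## more excluded primes -/

/-- more excluded primes -/
noncomputable def datM (D : Dat) (c : ℕ) : Dat := { D with c0 := D.c0 * c }

theorem axM {D : Dat} (h : AxG D) {c : ℕ} (hc : 0 < c) : AxG (datM D c) := by
  have hn : ∀ q : ℕ, ¬ q ∣ (datM D c).c0 → ¬ q ∣ D.c0 := fun q hq h1 =>
    hq (dvd_mul_of_dvd_left h1 c)
  refine
    { c0_pos := Nat.mul_pos h.c0_pos hc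
      two := dvd_mul_of_dvd_left h.two c
      m_odd := h.m_odd
      κ1 := h.κ1
      τ1 := h.τ1
      β01 := h.β01
      rho_up := h.rho_up
      per := h.per
      ord := fun q n hq hqc => h.ord q n hq (hn q hqc)
      cnt := fun q hq hqc => h.cnt q hq (hn q hqc)
      mert := h.mert
      low := ?_ }
  intro g hg
  obtain ⟨δ, C, hδ, hC⟩ := h.low g hg
  refine ⟨δ, C + ∑ q ∈ c.primeFactors, D.ρ q / q, hδ, fun z hz => ?_⟩
  have h1 := hC z hz
  classical
  have h2 : ∑ q ∈ (PI 2 z).filter (fun q => ¬ q ∣ D.c0 ∧ ∃ j : ℕ, (g : ZMod q) ^ j = -1), D.ρ q / q ≤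
      ∑ q ∈ ((PI 2 z).filter (fun q => ¬ q ∣ (datM D c).c0 ∧ ∃ j : ℕ, (g : ZMod q) ^ j = -1)) ∪
        c.primeFactors, D.ρ q / q := by
    refine Finset.sum_le_sum_of_subset_of_nonneg ?_ fun q _ _ =>
      div_nonneg (h.rho_up q).1 (Nat.cast_nonneg q)
    intro q hq
    rw [mem_filter] at hq
    obtain ⟨hq1, hq2, hq3⟩ := hq
    by_cases hqc : q ∣ c
    · rw [mem_union]
      right
      have hp : q.Prime := by
        unfold PI at hq1
        rw [mem_filter] at hq1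
        exact hq1.2
      exact Nat.mem_primeFactors.2 ⟨hp, hqc, hc.ne'⟩
    · rw [mem_union, mem_filter]
      left
      have hp : q.Prime := by
        unfold PI at hq1
        rw [mem_filter] at hq1
        exact hq1.2
      refine ⟨hq1, ?_, hq3⟩
      intro h4
      rcases (Nat.Prime.dvd_mul hp).1 h4 with h5 | h5
      · exact hq2 h5
      · exact hqc h5
  have h3 : ∑ q ∈ ((PI 2 z).filter (fun q => ¬ q ∣ (datM D c).c0 ∧
        ∃ j : ℕ, (g : ZMod q) ^ j = -1)) ∪ c.primeFactors, D.ρ q / q ≤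
      ∑ q ∈ (PI 2 z).filter (fun q => ¬ q ∣ (datM D c).c0 ∧ ∃ j : ℕ, (g : ZMod q) ^ j = -1),
        D.ρ q / q + ∑ q ∈ c.primeFactors, D.ρ q / q := by
    rw [← Finset.sum_union_inter]
    have : 0 ≤ ∑ q ∈ ((PI 2 z).filter (fun q => ¬ q ∣ (datM D c).c0 ∧
        ∃ j : ℕ, (g : ZMod q) ^ j = -1)) ∩ c.primeFactors, D.ρ q / q :=
      Finset.sum_nonneg fun q _ => div_nonneg (h.rho_up q).1 (Nat.cast_nonneg q)
    linarith
  have h4 : ∑ q ∈ (PI 2 z).filter (fun q => ¬ q ∣ (datM D c).c0 ∧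
      ∃ j : ℕ, (g : ZMod q) ^ j = -1), (datM D c).ρ q / q =
      ∑ q ∈ (PI 2 z).filter (fun q => ¬ q ∣ (datM D c).c0 ∧
      ∃ j : ℕ, (g : ZMod q) ^ j = -1), D.ρ q / q := rfl
  rw [h4]
  linarith

end Pool.Agent.R116.PG
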