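import Pool.Agent.R116.PG

set_option autoImplicit false

/-!
# Counting the orders with tests at the prime divisors of `1 + n + ... + n ^ (m - 1)`
-/

namespace Pool.Agent.R116.PG

open Finset Filter Topology MulAction
open Pool.Agent.H951R4.OD (ch PI Ex)
open Pool.Agent.W114.PQ (Dat Pass ex_split finX squeeze)
open Pool.Agent.W52.PQ
open Pool.Agent.Y346.SG
open Pool.Agent.R116.SP

/-- the tests -/
def Tst (s : ℕ) (S : ℕ → ℕ → Prop) : Prop :=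
  ∀ n m : ℕ, 2 ≤ n → Odd m → 3 ≤ m → S n m → ∀ q r j a u : ℕ, q.Prime → s < q →
    q ∣ ∑ i ∈ range m, n ^ i → r.Prime → (r : ZMod q) ^ j = -1 → Odd a → ¬ r ∣ u →
    n = r ^ a * u → False

theorem tst_pg (s : ℕ) : Tst s (HasPG s) :=
  fun n m hn hm hm3 h q r j a u hq hsq hqV hr hj ha hu hnu =>
    excl_pg hn hm hm3 h hq hsq hqV hr hj ha hu hnu

theorem dvd_geom {q n m : ℕ} [Fact q.Prime] (h1 : (n : ZMod q) ^ m = 1) (h2 : (n : ZMod q) ≠ 1) :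
    q ∣ ∑ i ∈ range m, n ^ i := by
  rw [← ZMod.natCast_eq_zero_iff]
  push_cast
  have h3 := geom_sum_mul (n : ZMod q) m
  rw [h1, sub_self] at h3
  exact (mul_eq_zero.1 h3).resolve_right (sub_ne_zero.2 h2)

/-- the tests -/
theorem passT {s i L n m : ℕ} {S : ℕ → ℕ → Prop} (hS : Tst s S) {E : Finset ℕ} (hi : Odd i)
    (hL0 : L ≠ 0) (hE : E ⊆ EE i L) (hm : Odd m) (hm3 : 3 ≤ m) (hLm : L ∣ m) (hn : 2 ≤ n)
    (h : S (n ^ i) m) : Pass (datM (datE (i * L) E 0) s.factorial) n := by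
  refine ⟨?_, fun h0 => by
    change (0 : ℝ) = 1 at h0
    norm_num at h0⟩
  intro p q j hEx hq hqc hT hj
  have hqc' : ¬ q ∣ 6 * (i * L) * s.factorial := hqc
  have hT' : ∃ d ∈ E, orderOf (n : ZMod q) = d := hT
  obtain ⟨d, hd, ho⟩ := hT'
  have hd' := hE hd
  have hi0 : i ≠ 0 := hi.pos.ne'
  rw [mem_EE hi0 hL0] at hd'
  have : Fact q.Prime := ⟨hq⟩
  have hnp := pow_split (i := i) hEx.1 (ex_split hEx)
  have hn2 : 2 ≤ n ^ i := hn.trans (Nat.le_self_pow hi0 n)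
  have hsq : s < q := by
    by_contra hcon
    push Not at hcon
    exact hqc' (Dvd.dvd.mul_left (Nat.dvd_factorial hq.pos hcon) _)
  refine hS _ m hn2 hm hm3 h q p j i ((n / p) ^ i) hq hsq (dvd_geom ?_ ?_) hEx.1 hj hi hnp.2 hnp.1
  · push_cast
    rw [← pow_mul, ← orderOf_dvd_iff_pow_eq_one, ho]
    exact hd'.1.trans (Nat.mul_dvd_mul_left i hLm)
  · intro h1
    push_cast at h1
    rw [← orderOf_dvd_iff_pow_eq_one, ho] at h1
    exact hd'.2 h1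

theorem appT {s i L : ℕ} {S : ℕ → ℕ → Prop} (hS : Tst s S) (hi : Odd i) (hL : Odd L) (h3 : 3 ≤ L)
    (hp : ¬ (L.Prime ∧ ∃ a, i = L ^ a)) :
    Tendsto (fun X : ℕ => ({n : ℕ | 2 ≤ n ∧ n ≤ X ∧ ¬ IsPrimePow n ∧
      ∃ m : ℕ, Odd m ∧ 3 ≤ m ∧ L ∣ m ∧ S (n ^ i) m}.ncard : ℝ) *
        Real.log X / X) atTop (𝓝 0) := by
  have hL0 : L ≠ 0 := by omega
  have h1 : 1 < (datM (datE (i * L) (EE i L) 0) s.factorial).τ +
      (datM (datE (i * L) (EE i L) 0) s.factorial).β / 2 := by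
    have e1 : (datM (datE (i * L) (EE i L) 0) s.factorial).τ = ((EE i L).card : ℝ) := rfl
    have e2 : (datM (datE (i * L) (EE i L) 0) s.factorial).β = 0 := rfl
    have h5 : (2 : ℝ) ≤ ((EE i L).card : ℝ) := by exact_mod_cast two_le_card hi hL h3 hp
    rw [e1, e2]
    linarith
  refine squeeze (fun X => ?_) (fun X => ?_)
    (mainSG (datM (datE (i * L) (EE i L) 0) s.factorial)
      (axM (axE (good_EE hi hL h3) 0 (Or.inl rfl)) (Nat.factorial_pos s)) h1)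
  · rintro n ⟨hn2, hnX, hnp, m, hm, hm3, hLm, hSn⟩
    exact ⟨by omega, hnX, passT hS hi hL0 subset_rfl hm hm3 hLm hn2 hSn,
      fun hp => hnp hp.isPrimePow⟩
  · exact finX _ X

theorem cntT {s i L : ℕ} {S : ℕ → ℕ → Prop} (hS : Tst s S) (hi : Odd i) (hL : Odd L) (h3 : 3 ≤ L)
    (ε : ℝ) (hε : 0 < ε) :
    ∃ C : ℝ, 0 < C ∧ ∀ X : ℕ, 3 ≤ X →
      ({n : ℕ | 2 ≤ n ∧ n ≤ X ∧
        ∃ m : ℕ, Odd m ∧ 3 ≤ m ∧ L ∣ m ∧ S (n ^ i) m}.ncard : ℝ) ≤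
      C * X * (Real.log X) ^ (ε - 1) := by
  have hL0 : L ≠ 0 := by omega
  have e1 : (datM (datE (i * L) {i * L} 0) s.factorial).τ +
      (datM (datE (i * L) {i * L} 0) s.factorial).β / 2 = 1 := by
    have e1 : (datM (datE (i * L) {i * L} 0) s.factorial).τ =
      ((({i * L} : Finset ℕ)).card : ℝ) := rfl
    have e2 : (datM (datE (i * L) {i * L} 0) s.factorial).β = 0 := rfl
    rw [e1, e2, card_singleton]
    norm_num
  obtain ⟨C, hC, H⟩ := OC.oc Pool.Agent.W52.PQ.sv mn_full BK.bk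
    (datM (datE (i * L) {i * L} 0) s.factorial)
    (axM (axE (good_single hi hL h3) 0 (Or.inl rfl)) (Nat.factorial_pos s)) e1 ε hε
  refine ⟨C, hC, fun X hX => le_trans ?_ (H X hX)⟩
  have hsub : {n : ℕ | 2 ≤ n ∧ n ≤ X ∧
        ∃ m : ℕ, Odd m ∧ 3 ≤ m ∧ L ∣ m ∧ S (n ^ i) m} ⊆
      {n : ℕ | 1 ≤ n ∧ n ≤ X ∧ Pass (datM (datE (i * L) {i * L} 0) s.factorial) n} := by
    rintro n ⟨hn2, hnX, m, hm, hm3, hLm, hSn⟩
    refine ⟨by omega, hnX, passT hS hi hL0 ?_ hm hm3 hLm hn2 hSn⟩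
    intro d hd
    rw [mem_singleton] at hd
    rw [hd]
    exact (good_EE hi hL h3).mem
  exact_mod_cast Set.ncard_le_ncard hsub (finX _ X)

theorem cntKT {s i : ℕ} {S : ℕ → ℕ → Prop} (hS : Tst s S) (hi : Odd i) (K : ℕ) (ε : ℝ)
    (hε : 0 < ε) :
    ∃ C : ℝ, 0 < C ∧ ∀ X : ℕ, 3 ≤ X →
      ({n : ℕ | 2 ≤ n ∧ n ≤ X ∧
        ∃ m : ℕ, Odd m ∧ 3 ≤ m ∧ m.minFac ≤ K ∧ S (n ^ i) m}.ncard : ℝ) ≤
      C * X * (Real.log X) ^ (ε - 1) := by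
  classical
  have h : ∀ L : ℕ, ∃ C : ℝ, 0 < C ∧ ((Odd L ∧ 3 ≤ L) → ∀ X : ℕ, 3 ≤ X →
      ({n : ℕ | 2 ≤ n ∧ n ≤ X ∧
        ∃ m : ℕ, Odd m ∧ 3 ≤ m ∧ L ∣ m ∧ S (n ^ i) m}.ncard : ℝ) ≤
      C * X * (Real.log X) ^ (ε - 1)) := by
    intro L
    by_cases hL : Odd L ∧ 3 ≤ L
    · obtain ⟨C, hC, H⟩ := cntT hS hi hL.1 hL.2 ε hε
      exact ⟨C, hC, fun _ => H⟩
    · exact ⟨1, one_pos, fun h => absurd h hL⟩
  choose C hC H using h
  set T := (Finset.range (K + 1)).filter (fun L => Odd L ∧ 3 ≤ L) with hT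
  refine ⟨∑ L ∈ T, C L + 1, by
    have : 0 ≤ ∑ L ∈ T, C L := Finset.sum_nonneg fun L _ => (hC L).le
    linarith, fun X hX => ?_⟩
  set A : ℕ → Set ℕ := fun L => {n : ℕ | 2 ≤ n ∧ n ≤ X ∧
        ∃ m : ℕ, Odd m ∧ 3 ≤ m ∧ L ∣ m ∧ S (n ^ i) m} with hA
  have hAfin : ∀ L, (A L).Finite := fun L => (Set.finite_le_nat X).subset fun _ hp => hp.2.1
  have hlog : 0 ≤ (X : ℝ) * (Real.log X) ^ (ε - 1) :=
    mul_nonneg (Nat.cast_nonneg _) (Real.rpow_nonneg (Real.log_natCast_nonneg X) _)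
  have h1 : ({n : ℕ | 2 ≤ n ∧ n ≤ X ∧
        ∃ m : ℕ, Odd m ∧ 3 ≤ m ∧ m.minFac ≤ K ∧ S (n ^ i) m}.ncard : ℝ) ≤
      ∑ L ∈ T, ((A L).ncard : ℝ) := by
    have h2 : {n : ℕ | 2 ≤ n ∧ n ≤ X ∧
        ∃ m : ℕ, Odd m ∧ 3 ≤ m ∧ m.minFac ≤ K ∧ S (n ^ i) m} ⊆
        ((T.biUnion fun L => (hAfin L).toFinset : Finset ℕ) : Set ℕ) := by
      rintro n ⟨hn2, hnX, m, hm, hm3, hK, hSi⟩
      have hp : m.minFac.Prime := Nat.minFac_prime (by omega)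
      have hd : m.minFac ∣ m := Nat.minFac_dvd m
      have ho : Odd m.minFac := Odd.of_dvd_nat hm hd
      have h3 : 3 ≤ m.minFac := by
        have h2 := hp.two_le
        obtain ⟨c, hc⟩ := ho
        omega
      rw [Finset.mem_coe, Finset.mem_biUnion]
      refine ⟨m.minFac, ?_, ?_⟩
      · rw [hT, Finset.mem_filter, Finset.mem_range]
        exact ⟨by omega, ho, h3⟩
      · rw [Set.Finite.mem_toFinset]
        exact ⟨hn2, hnX, m, hm, hm3, hd, hSi⟩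
    have h3 := Set.ncard_le_ncard h2 (Finset.finite_toSet _)
    rw [Set.ncard_coe_finset] at h3
    have h4 := h3.trans Finset.card_biUnion_le
    have h5 : ∀ L, (hAfin L).toFinset.card = (A L).ncard := fun L =>
      (Set.ncard_eq_toFinset_card _ (hAfin L)).symm
    simp only [h5] at h4
    exact_mod_cast h4
  refine h1.trans ?_
  calc ∑ L ∈ T, ((A L).ncard : ℝ) ≤ ∑ L ∈ T, C L * X * (Real.log X) ^ (ε - 1) := by
        refine Finset.sum_le_sum fun L hL => ?_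
        rw [hT, Finset.mem_filter] at hL
        exact H L hL.2 X hX
    _ = (∑ L ∈ T, C L) * (X * (Real.log X) ^ (ε - 1)) := by
        rw [Finset.sum_mul]
        exact Finset.sum_congr rfl fun L _ => by ring
    _ ≤ (∑ L ∈ T, C L + 1) * (X * (Real.log X) ^ (ε - 1)) :=
        mul_le_mul_of_nonneg_right (by linarith) hlog
    _ = _ := by ring

theorem appKT {s i : ℕ} {S : ℕ → ℕ → Prop} (hS : Tst s S) (hi : Odd i) (K : ℕ) :
    Tendsto (fun X : ℕ => ({n : ℕ | 2 ≤ n ∧ n ≤ X ∧ ¬ IsPrimePow n ∧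
      ∃ m L : ℕ, Odd m ∧ 3 ≤ L ∧ L ≤ K ∧ L ∣ m ∧ ¬ (L.Prime ∧ ∃ a, i = L ^ a) ∧
        S (n ^ i) m}.ncard : ℝ) * Real.log X / X) atTop (𝓝 0) := by
  classical
  set T := (Finset.range (K + 1)).filter (fun L => Odd L ∧ 3 ≤ L ∧ ¬ (L.Prime ∧ ∃ a, i = L ^ a))
    with hT
  set A : ℕ → ℕ → Set ℕ := fun L X => {n : ℕ | 2 ≤ n ∧ n ≤ X ∧ ¬ IsPrimePow n ∧
        ∃ m : ℕ, Odd m ∧ 3 ≤ m ∧ L ∣ m ∧ S (n ^ i) m} with hA
  have hAfin : ∀ L X, (A L X).Finite := fun L X =>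
    (Set.finite_le_nat X).subset fun _ hp => hp.2.1
  have hlim : Tendsto (fun X : ℕ => ∑ L ∈ T, (((A L X).ncard : ℝ) * Real.log X / X)) atTop
      (𝓝 0) := by
    rw [show (0 : ℝ) = ∑ L ∈ T, (0 : ℝ) by simp]
    refine tendsto_finsetSum _ fun L hL => ?_
    rw [hT, Finset.mem_filter] at hL
    exact appT hS hi hL.2.1 hL.2.2.1 hL.2.2.2
  refine squeeze_zero (fun X => ?_) (fun X => ?_) hlim
  · exact div_nonneg (mul_nonneg (Nat.cast_nonneg _) (Real.log_natCast_nonneg X))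
      (Nat.cast_nonneg _)
  · have h1 : ({n : ℕ | 2 ≤ n ∧ n ≤ X ∧ ¬ IsPrimePow n ∧
      ∃ m L : ℕ, Odd m ∧ 3 ≤ L ∧ L ≤ K ∧ L ∣ m ∧ ¬ (L.Prime ∧ ∃ a, i = L ^ a) ∧
        S (n ^ i) m}.ncard : ℝ) ≤ ∑ L ∈ T, ((A L X).ncard : ℝ) := by
      have h2 : {n : ℕ | 2 ≤ n ∧ n ≤ X ∧ ¬ IsPrimePow n ∧
          ∃ m L : ℕ, Odd m ∧ 3 ≤ L ∧ L ≤ K ∧ L ∣ m ∧ ¬ (L.Prime ∧ ∃ a, i = L ^ a) ∧
            S (n ^ i) m} ⊆
          ((T.biUnion fun L => (hAfin L X).toFinset : Finset ℕ) : Set ℕ) := by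
        rintro n ⟨hn2, hnX, hnp, m, L, hm, hL3, hLK, hLm, hC, hSi⟩
        have ho : Odd L := Odd.of_dvd_nat hm hLm
        rw [Finset.mem_coe, Finset.mem_biUnion]
        refine ⟨L, ?_, ?_⟩
        · rw [hT, Finset.mem_filter, Finset.mem_range]
          exact ⟨by omega, ho, hL3, hC⟩
        · rw [Set.Finite.mem_toFinset]
          exact ⟨hn2, hnX, hnp, m, hm, hL3.trans (Nat.le_of_dvd hm.pos hLm), hLm, hSi⟩
      have h3 := Set.ncard_le_ncard h2 (Finset.finite_toSet _)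
      rw [Set.ncard_coe_finset] at h3
      have h4 := h3.trans Finset.card_biUnion_le
      have h5 : ∀ L, (hAfin L X).toFinset.card = (A L X).ncard := fun L =>
        (Set.ncard_eq_toFinset_card _ (hAfin L X)).symm
      simp only [h5] at h4
      exact_mod_cast h4
    calc _ ≤ (∑ L ∈ T, ((A L X).ncard : ℝ)) * Real.log X / X :=
          div_le_div_of_nonneg_right
            (mul_le_mul_of_nonneg_right h1 (Real.log_natCast_nonneg X)) (Nat.cast_nonneg _)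
      _ = _ := by
          rw [Finset.sum_mul, Finset.sum_div]

end Pool.Agent.R116.PG
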