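import Pool.Agent.R116.PGCnt
import Pool.Agent.TH66.SG.Tup5
import Pool.Agent.TH66.SG.Tup6

set_option autoImplicit false

/-!
# Orders with a fixed number of prime factors
-/

namespace Pool.Agent.R116.PG

open Finset Filter Topology
open Pool.Agent.TH66.SG (tup_main exx neg_ne_one pow_of_primes two_le_prod LL density_of_tuples
  exists_zeta')

open Classical in
theorem tup_T {s : ℕ} {S : ℕ → ℕ → Prop} (hT : Tst s S) (k a l e : ℕ) (ha : 1 ≤ a)
    (hl : l.Prime) (hlo : Odd l) (heo : Odd e) (ε : ℝ) (hε : 0 < ε) :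
    ∃ X₀ : ℕ, ∀ X : ℕ, X₀ ≤ X →
      (((LL (k + 1 + 1) X).filter (fun x => ∃ m, Odd m ∧ 3 ≤ m ∧ l ∣ m ∧
        S ((a * ∏ i, x i) ^ e) m)).card : ℝ) ≤
        ε * Pool.Agent.TH66.SG.NN (k + 1 + 1) X := by
  set κ := e.factorization l + 1 with hκ
  have hlkE : ∀ m, l ∣ m → l ^ κ ∣ e * m := by
    intro m hlm
    rw [hκ, pow_succ]
    exact Nat.mul_dvd_mul (Nat.ordProj_dvd e l) hlm
  have hlke : ¬ l ^ κ ∣ e := Nat.pow_succ_factorization_not_dvd heo.pos.ne' hl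
  refine tup_main 3 k (l ^ κ) (4 + s) a le_rfl hlo.pow ha (fun w t => t ^ (l ^ κ) = 1 ∧ t ^ e ≠ 1)
    (fun w t => t ^ (l ^ κ) = 1 ∧ t ^ e ≠ 1) ?_
    (fun N => ∃ m, Odd m ∧ 3 ≤ m ∧ l ∣ m ∧ S ((a * N) ^ e) m) ?_ ε hε
  · intro w hw hw2 hLw _ g _
    have hwf : Fact w.Prime := ⟨hw⟩
    obtain ⟨ζ, hζ⟩ := exists_zeta' w (l ^ κ) hLw
    have h1 : ζ ^ (2 ^ (3 - 1) * l ^ κ) = 1 := (hζ _).2 (dvd_mul_left _ _)
    have h2 : ζ ^ (l ^ κ) = 1 ∧ ζ ^ e ≠ 1 := ⟨(hζ _).2 dvd_rfl, fun h => hlke ((hζ _).1 h)⟩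
    exact ⟨ζ, ζ, h1, h1, h2, h2⟩
  · intro w b _ _ hw _ hK _ hb _ hwb _ hqa p hp hc _ hP _ hS
    obtain ⟨m, hmo, hm, hlm, hS⟩ := hS
    have hwf : Fact w.Prime := ⟨hw⟩
    have hw2 : w ≠ 2 := by omega
    have h11 := neg_ne_one hw hw2
    have hN2 : 2 ≤ ∏ i, p i := two_le_prod p hp
    have hfact : ∏ i, p i = p 0 * ∏ i : Fin (k + 1), p i.succ := Fin.prod_univ_succ _
    have hc0 : (p 0 : ZMod w) ^ (4 * b) = -1 := by
      have := hc 0
      simpa [exx] using this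
    have hc1 : (p 1 : ZMod w) ^ (4 * b) = -1 := by
      have := hc 1
      simpa [exx] using this
    have hc2 : ∀ i : Fin k, (p i.succ.succ : ZMod w) ^ b = -1 := by
      intro i
      have := hc i.succ.succ
      simpa [exx] using this
    have hne2 : ∀ i : Fin k, p 0 ≠ p i.succ.succ := by
      intro i h
      apply h11
      rw [← hc0, h, mul_comm, pow_mul, hc2 i]
      norm_num
    have hab : (a : ZMod w) ^ b = 1 := pow_of_primes (by omega) hqa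
    have hne1 : p 0 ≠ p 1 := by
      intro h
      have h1 : ((a * ∏ i, p i : ℕ) : ZMod w) ^ (2 * b) = -1 := by
        rw [Fin.prod_univ_succ, Fin.prod_univ_succ]
        push_cast
        have e1 : (p (Fin.succ 0) : ZMod w) = p 0 := by
          rw [h]
          rfl
        have e2 : (∏ i : Fin k, (p i.succ.succ : ZMod w)) ^ (2 * b) = 1 := by
          rw [← Finset.prod_pow]
          refine Finset.prod_eq_one fun i _ => ?_
          rw [mul_comm, pow_mul, hc2 i]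
          norm_num
        have e3 : (a : ZMod w) ^ (2 * b) = 1 := by
          rw [mul_comm, pow_mul, hab, one_pow]
        rw [e1, mul_pow, mul_pow, mul_pow, e2, e3, mul_one, one_mul, ← pow_add, ← hc0]
        congr 1
        ring
      have h2 : ((a * ∏ i, p i : ℕ) : ZMod w) ^ (2 * b * l ^ κ) = -1 := by
        rw [pow_mul, h1, hlo.pow.neg_one_pow]
      rw [mul_comm (2 * b) (l ^ κ), pow_mul, hP.1, one_pow] at h2
      exact h11 h2.symm
    have hpa : ¬ p 0 ∣ a := by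
      intro h
      apply h11
      rw [← hc0, mul_comm, pow_mul, hqa (p 0) (hp 0) h, one_pow]
    have hN2' : 2 ≤ a * ∏ i, p i := by nlinarith
    have hn2 : 2 ≤ (a * ∏ i, p i) ^ e := calc 2 ≤ a * ∏ i, p i := hN2'
          _ = (a * ∏ i, p i) ^ 1 := (pow_one _).symm
          _ ≤ (a * ∏ i, p i) ^ e := Nat.pow_le_pow_right (by omega) heo.pos
    refine hT _ m hn2 hmo hm hS w (p 0) (4 * b) e ((a * ∏ i : Fin (k + 1), p i.succ) ^ e) hw
      (by omega) (dvd_geom ?_ ?_) (hp 0) hc0 heo ?_ ?_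
    · obtain ⟨c, hc⟩ := hlkE m hlm
      rw [Nat.cast_pow, ← pow_mul, hc, pow_mul, hP.1, one_pow]
    · rw [Nat.cast_pow]
      exact hP.2
    · intro hdvd
      have h3 := ((hp 0).dvd_mul.1 ((hp 0).dvd_of_dvd_pow hdvd)).resolve_left hpa
      obtain ⟨i, -, hi⟩ := (Prime.dvd_finsetProd_iff (hp 0).prime _).1 h3
      have h4 := (Nat.prime_dvd_prime_iff_eq (hp 0) (hp i.succ)).1 hi
      revert h4
      refine Fin.cases ?_ (fun i => ?_) i
      · exact fun h => hne1 h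
      · exact fun h => hne2 i h
    · rw [hfact, ← mul_pow]
      congr 1
      ring

theorem density_T {s : ℕ} {S : ℕ → ℕ → Prop} (hT : Tst s S) (k a l e : ℕ) (hk : 2 ≤ k)
    (ha : 1 ≤ a) (hl : l.Prime) (hlo : Odd l) (heo : Odd e) :
    Tendsto (fun X : ℕ =>
      ({N : ℕ | N ≤ X ∧ N.primeFactorsList.length = k ∧ ∃ m, Odd m ∧ 3 ≤ m ∧ l ∣ m ∧
          S ((a * N) ^ e) m}.ncard : ℝ) /
        ({N : ℕ | N ≤ X ∧ N.primeFactorsList.length = k}.ncard : ℝ)) atTop (𝓝 0) := by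
  classical
  obtain ⟨k, rfl⟩ : ∃ k', k = k' + 1 + 1 := ⟨k - 2, by omega⟩
  refine density_of_tuples (by omega) (fun N => ∃ m, Odd m ∧ 3 ≤ m ∧ l ∣ m ∧
          S ((a * N) ^ e) m) fun ε hε => ?_
  obtain ⟨X₀, hX₀⟩ := tup_T hT k a l e ha hl hlo heo ε hε
  refine ⟨X₀, fun X hX => le_trans (le_of_eq ?_) (hX₀ X hX)⟩
  norm_cast

theorem density_KT {s : ℕ} {S : ℕ → ℕ → Prop} (hT : Tst s S) (k a e K : ℕ) (hk : 2 ≤ k)
    (ha : 1 ≤ a) (heo : Odd e) :
    Tendsto (fun X : ℕ =>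
      ({N : ℕ | N ≤ X ∧ N.primeFactorsList.length = k ∧ ∃ m, Odd m ∧ 3 ≤ m ∧ m.minFac ≤ K ∧
          S ((a * N) ^ e) m}.ncard : ℝ) /
        ({N : ℕ | N ≤ X ∧ N.primeFactorsList.length = k}.ncard : ℝ)) atTop (𝓝 0) := by
  classical
  set T := (Finset.range (K + 1)).filter (fun l => l.Prime ∧ Odd l) with hTdef
  set A : ℕ → ℕ → Set ℕ := fun l X => {N : ℕ | N ≤ X ∧ N.primeFactorsList.length = k ∧
    ∃ m, Odd m ∧ 3 ≤ m ∧ l ∣ m ∧ S ((a * N) ^ e) m} with hA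
  have hAfin : ∀ l X, (A l X).Finite := fun l X =>
    (Set.finite_le_nat X).subset fun _ hp => hp.1
  have hlim : Tendsto (fun X : ℕ => ∑ l ∈ T, (((A l X).ncard : ℝ) /
      ({N : ℕ | N ≤ X ∧ N.primeFactorsList.length = k}.ncard : ℝ))) atTop (𝓝 0) := by
    rw [show (0 : ℝ) = ∑ l ∈ T, (0 : ℝ) by simp]
    refine tendsto_finsetSum _ fun l hl => ?_
    rw [hTdef, Finset.mem_filter] at hl
    exact density_T hT k a l e hk ha hl.2.1 hl.2.2 heo
  refine squeeze_zero (fun X => by positivity) (fun X => ?_) hlim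
  rw [← Finset.sum_div]
  apply div_le_div_of_nonneg_right _ (Nat.cast_nonneg _)
  have h2 : {N : ℕ | N ≤ X ∧ N.primeFactorsList.length = k ∧ ∃ m, Odd m ∧ 3 ≤ m ∧ m.minFac ≤ K ∧
          S ((a * N) ^ e) m} ⊆
      ((T.biUnion fun l => (hAfin l X).toFinset : Finset ℕ) : Set ℕ) := by
    rintro N ⟨hNX, hlen, m, hm, hm3, hK, hSi⟩
    have hp : m.minFac.Prime := Nat.minFac_prime (by omega)
    have hd : m.minFac ∣ m := Nat.minFac_dvd m
    rw [Finset.mem_coe, Finset.mem_biUnion]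
    refine ⟨m.minFac, ?_, ?_⟩
    · rw [hTdef, Finset.mem_filter, Finset.mem_range]
      exact ⟨by omega, hp, Odd.of_dvd_nat hm hd⟩
    · rw [Set.Finite.mem_toFinset]
      exact ⟨hNX, hlen, m, hm, hm3, hd, hSi⟩
  have h3 := Set.ncard_le_ncard h2 (Finset.finite_toSet _)
  rw [Set.ncard_coe_finset] at h3
  have h4 := h3.trans Finset.card_biUnion_le
  have h5 : ∀ L, (hAfin L X).toFinset.card = (A L X).ncard := fun L =>
    (Set.ncard_eq_toFinset_card _ (hAfin L X)).symm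
  simp only [h5] at h4
  exact_mod_cast h4

end Pool.Agent.R116.PG
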