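import Mathlib
import Pool.Agent.Y346.SG.Full
import Pool.Agent.Y346.SG.OC
import Pool.Agent.Y461.SG.CD

set_option autoImplicit false

/-!
# Difference sets with Singer parameters `(n ^ i, m)`

The prime `q` tests `n` if the order of `n` modulo `q` lies in a given set `E` of divisors of an odd
number `M`, where `M` lies in `E`.
-/

namespace Pool.Agent.R116.SP

open Finset Filter Topology
open Pool.Agent.H951R4.OD (ch PI Ex)
open Pool.Agent.W114.PQ (Dat Pass ex_split finX squeeze)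
open Pool.Agent.W52.PQ
open Pool.Agent.H771R2.SingerDS Pool.Agent.H771R2.Lander
open Pool.Agent.Y346.SG

/-- the data -/
noncomputable def datE (M : ℕ) (E : Finset ℕ) (b : ℝ) : Dat where
  c0 := 6 * M
  m := M
  e := 0
  Δ := -3
  κ := M
  τ := (E.card : ℝ)
  β := b
  ρ := fun q => ∑ d ∈ E, (if q % d = 1 then (d.totient : ℝ) else 0)
  T := fun q n => ∃ d ∈ E, orderOf (n : ZMod q) = d

/-- the conditions on `E` -/
structure Good (M : ℕ) (E : Finset ℕ) : Prop where
  odd : Odd M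
  three : 3 ≤ M
  mem : M ∈ E
  gt : ∀ d ∈ E, 1 < d
  dvd : ∀ d ∈ E, d ∣ M

theorem rhoE_ge (E : Finset ℕ) (q : ℕ) :
    0 ≤ ∑ d ∈ E, (if q % d = 1 then (d.totient : ℝ) else 0) := by
  refine Finset.sum_nonneg fun d _ => ?_
  split_ifs
  · positivity
  · exact le_rfl

theorem rhoE_le {M : ℕ} {E : Finset ℕ} (h : Good M E) (q : ℕ) :
    ∑ d ∈ E, (if q % d = 1 then (d.totient : ℝ) else 0) ≤ M := by
  have h0 := h.three
  have h1 : E ⊆ M.divisors := by
    intro d hd
    rw [Nat.mem_divisors]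
    exact ⟨h.dvd d hd, by omega⟩
  calc ∑ d ∈ E, (if q % d = 1 then (d.totient : ℝ) else 0)
      ≤ ∑ d ∈ E, (d.totient : ℝ) := by
        refine sum_le_sum fun d _ => ?_
        split_ifs
        · exact le_rfl
        · positivity
    _ ≤ ∑ d ∈ M.divisors, (d.totient : ℝ) :=
        sum_le_sum_of_subset_of_nonneg h1 fun d _ _ => by positivity
    _ = (M : ℝ) := by
        rw [← Nat.cast_sum, Nat.sum_totient]

theorem card_TE {M : ℕ} {E : Finset ℕ} (h : Good M E) (q : ℕ) [hq : Fact q.Prime]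
    (P : ZMod q → Prop) [DecidablePred P] (hP : ∀ x, P x ↔ ∃ d ∈ E, orderOf x = d) :
    (univ.filter P).card = ∑ d ∈ E, (if q % d = 1 then d.totient else 0) := by
  rw [Finset.card_eq_sum_card_fiberwise (f := fun x : ZMod q => orderOf x) (t := E)]
  · refine Finset.sum_congr rfl fun d hd => ?_
    rw [← card_order q d (h.gt d hd)]
    congr 1
    ext x
    rw [mem_filter, mem_filter, mem_filter]
    constructor
    · rintro ⟨_, h⟩
      exact ⟨mem_univ _, h⟩
    · rintro ⟨_, h⟩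
      exact ⟨⟨mem_univ _, (hP x).2 ⟨d, hd, h⟩⟩, h⟩
  · intro x hx
    rw [mem_coe, mem_filter] at hx
    obtain ⟨d, h1, h2⟩ := (hP x).1 hx.2
    rw [mem_coe]
    change orderOf x ∈ E
    rw [h2]
    exact h1

theorem axE {M : ℕ} {E : Finset ℕ} (h : Good M E) (b : ℝ) (hb : b = 0 ∨ b = 1) :
    AxG (datE M E b) := by
  have hM : 0 < M := by
    have := h.three
    omega
  refine
    { c0_pos := ?_, two := ?_, m_odd := h.odd, κ1 := ?_, τ1 := ?_,
      β01 := hb, rho_up := ?_, per := ?_, ord := ?_, cnt := ?_,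
      mert := ?_, low := ?_ }
  · change 0 < 6 * M
    omega
  · change 2 ∣ 6 * M
    exact ⟨3 * M, by ring⟩
  · change (1 : ℝ) ≤ (M : ℝ)
    exact_mod_cast hM
  · change (1 : ℝ) ≤ (E.card : ℝ)
    exact_mod_cast Finset.card_pos.2 ⟨M, h.mem⟩
  · intro q
    exact ⟨rhoE_ge E q, rhoE_le h q⟩
  · intro q n hq
    change (∃ d ∈ E, orderOf (((n + q ^ 2 : ℕ)) : ZMod q) = d) ↔
      ∃ d ∈ E, orderOf (n : ZMod q) = d
    have h : ((n + q ^ 2 : ℕ) : ZMod q) = (n : ZMod q) := by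
      push_cast
      rw [ZMod.natCast_self]
      ring
    rw [h]
  · intro q n hq hq6 hT
    obtain ⟨d, h2, h4⟩ := hT
    change (n : ZMod q) ^ M = 1
    rw [← orderOf_dvd_iff_pow_eq_one, h4]
    exact h.dvd d h2
  · intro q hq hq6
    have := Fact.mk hq
    classical
    have h1 : ((range (q ^ 2)).filter (fun n => (datE M E b).T q n)).card =
        q * ((range q).filter (fun n => (datE M E b).T q n)).card := by
      rw [pow_two]
      refine card_range_mul q q _ fun n => ?_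
      change (∃ d ∈ E, orderOf (((n + q : ℕ)) : ZMod q) = d) ↔
        ∃ d ∈ E, orderOf (n : ZMod q) = d
      have h : ((n + q : ℕ) : ZMod q) = (n : ZMod q) := by
        push_cast
        rw [ZMod.natCast_self]
        ring
      rw [h]
    have h2 : ((range q).filter (fun n => (datE M E b).T q n)).card =
        ∑ d ∈ E, (if q % d = 1 then d.totient else 0) := by
      rw [← card_TE h q (fun x => ∃ d ∈ E, orderOf x = d) (fun x => Iff.rfl)]
      rw [← card_range_zmod q (fun x => ∃ d ∈ E, orderOf x = d)]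
      refine congrArg Finset.card (Finset.filter_congr fun n _ => ?_)
      exact Iff.rfl
    have h3' : (((range (q ^ 2)).filter (fun n => (datE M E b).T q n)).card : ℝ) =
        q * (datE M E b).ρ q := by
      rw [h1, h2]
      change ((q * ∑ d ∈ E, (if q % d = 1 then d.totient else 0) : ℕ) : ℝ) = q *
        ∑ d ∈ E, (if q % d = 1 then (d.totient : ℝ) else 0)
      push_cast
      rfl
    have h4 : (0 : ℝ) ≤ (datE M E b).κ := by
      change (0 : ℝ) ≤ (M : ℝ)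
      positivity
    change |(((range (q ^ 2)).filter (fun n => (datE M E b).T q n)).card : ℝ) -
      q * (datE M E b).ρ q| ≤ (datE M E b).κ
    convert h4 using 1
    rw [abs_eq_zero, sub_eq_zero, ← h3']
  · obtain ⟨C, hC⟩ := mert_all E h.gt
    refine ⟨2 * C, fun y z hy hz => ?_⟩
    change |∑ q ∈ PI y z, (∑ d ∈ E, (if q % d = 1 then (d.totient : ℝ) else 0)) / q -
      (E.card : ℝ) * Real.log (Real.log z / Real.log y)| ≤ 2 * C
    have h1 := hC y hy
    have h2 := hC z (hy.trans hz)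
    rw [sum_PI_sub _ y z hz, Real.log_div
      (Real.log_pos (by exact_mod_cast (by omega : 1 < z))).ne'
      (Real.log_pos (by exact_mod_cast (by omega : 1 < y))).ne']
    rw [abs_le] at h1 h2 ⊢
    constructor <;> nlinarith [h1.1, h1.2, h2.1, h2.2]
  · intro g hg
    obtain ⟨δ, C, hδ, hC⟩ := Pool.Agent.Y79.SG2.low M h.odd h.three g hg
    refine ⟨δ, C, hδ, fun z hz => (hC z hz).trans ?_⟩
    classical
    have hρ : ∀ q : ℕ, q % M = 1 → 1 ≤ (datE M E b).ρ q := by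
      intro q hq
      change (1 : ℝ) ≤ ∑ d ∈ E, (if q % d = 1 then (d.totient : ℝ) else 0)
      refine le_trans ?_ (Finset.single_le_sum (f := fun d : ℕ =>
        if q % d = 1 then (d.totient : ℝ) else 0) (fun d _ => ?_) h.mem)
      · simp only [hq, if_true]
        exact_mod_cast Nat.totient_pos.2 hM
      · split_ifs
        · positivity
        · exact le_rfl
    calc ∑ q ∈ (PI 2 z).filter (fun q => q % M = 1 ∧ ¬ q ∣ 6 * M ∧
          ∃ j : ℕ, (g : ZMod q) ^ j = -1), (1 : ℝ) / q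
        ≤ ∑ q ∈ (PI 2 z).filter (fun q => q % M = 1 ∧ ¬ q ∣ 6 * M ∧
          ∃ j : ℕ, (g : ZMod q) ^ j = -1), (datE M E b).ρ q / q := by
          refine Finset.sum_le_sum fun q hq => ?_
          rw [mem_filter] at hq
          exact div_le_div_of_nonneg_right (hρ q hq.2.1) (Nat.cast_nonneg q)
      _ ≤ ∑ q ∈ (PI 2 z).filter (fun q => ¬ q ∣ 6 * M ∧ ∃ j : ℕ, (g : ZMod q) ^ j = -1),
          (datE M E b).ρ q / q := by
          refine Finset.sum_le_sum_of_subset_of_nonneg ?_ fun q _ _ =>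
            div_nonneg (rhoE_ge E q) (Nat.cast_nonneg q)
          intro q hq
          rw [mem_filter] at hq ⊢
          exact ⟨hq.1, hq.2.2⟩
      _ = _ := by
          refine Finset.sum_congr ?_ fun _ _ => rfl
          ext q
          simp only [mem_filter]
          rfl

theorem mainSG : Pool.Agent.Y346.SG.S_MAIN :=
  main_full (Pool.Agent.Y461.SG.cd ccs_full cf_full
      Pool.Agent.Y65.SG.g56 Pool.Agent.Y390.SG.PSUM.psum Pool.Agent.W465.PQ.GS.gs
      Pool.Agent.W465.PQ.GS.gd)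

/-! ## The tests -/

/-- the orders which test: divisors of `i L` which do not divide `i` -/
def EE (i L : ℕ) : Finset ℕ := (i * L).divisors.filter (fun d => ¬ d ∣ i)

theorem mem_EE {i L d : ℕ} (hi : i ≠ 0) (hL : L ≠ 0) : d ∈ EE i L ↔ d ∣ i * L ∧ ¬ d ∣ i := by
  unfold EE
  rw [mem_filter, Nat.mem_divisors]
  constructor
  · rintro ⟨⟨h1, -⟩, h2⟩
    exact ⟨h1, h2⟩
  · rintro ⟨h1, h2⟩
    exact ⟨⟨h1, mul_ne_zero hi hL⟩, h2⟩

theorem good_EE {i L : ℕ} (hi : Odd i) (hL : Odd L) (h3 : 3 ≤ L) : Good (i * L) (EE i L) := by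
  have hi0 : 0 < i := hi.pos
  have hL0 : 0 < L := by omega
  refine ⟨hi.mul hL, ?_, ?_, ?_, ?_⟩
  · calc 3 ≤ L := h3
      _ = 1 * L := (one_mul L).symm
      _ ≤ i * L := Nat.mul_le_mul_right L hi0
  · rw [mem_EE hi0.ne' hL0.ne']
    refine ⟨dvd_rfl, fun h => ?_⟩
    have h1 := Nat.le_of_dvd hi0 h
    have h2 : i * 3 ≤ i * L := Nat.mul_le_mul_left i h3
    omega
  · intro d hd
    rw [mem_EE hi0.ne' hL0.ne'] at hd
    have h1 : d ≠ 0 := by
      rintro rfl
      have := zero_dvd_iff.1 hd.1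
      exact mul_ne_zero hi0.ne' hL0.ne' this
    have h2 : d ≠ 1 := by
      rintro rfl
      exact hd.2 (one_dvd _)
    omega
  · intro d hd
    exact ((mem_EE hi0.ne' hL0.ne').1 hd).1

theorem good_single {i L : ℕ} (hi : Odd i) (hL : Odd L) (h3 : 3 ≤ L) : Good (i * L) {i * L} := by
  have h := good_EE hi hL h3
  refine ⟨h.odd, h.three, mem_singleton_self _, ?_, ?_⟩
  · intro d hd
    rw [mem_singleton] at hd
    have := h.three
    omega
  · intro d hd
    rw [mem_singleton] at hd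
    rw [hd]

theorem pow_split {i n p : ℕ} (hp : p.Prime) (h : n = p ^ 1 * (n / p) ∧ ¬ p ∣ n / p) :
    n ^ i = p ^ i * (n / p) ^ i ∧ ¬ p ∣ (n / p) ^ i := by
  constructor
  · have e : n = p * (n / p) := by rw [← pow_one p]; simpa using h.1
    calc n ^ i = (p * (n / p)) ^ i := by rw [← e]
      _ = _ := mul_pow _ _ _
  · exact fun h1 => h.2 (hp.dvd_of_dvd_pow h1)

/-- the tests of a Singer difference set -/
theorem passE {i L n m : ℕ} {E : Finset ℕ} (b : ℝ) (hi : Odd i) (hL0 : L ≠ 0) (hE : E ⊆ EE i L)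
    (hm : Odd m) (hm3 : 3 ≤ m) (hLm : L ∣ m) (hn : 2 ≤ n) (h : HasSinger (n ^ i) m)
    (hb : b = 1 → ∀ p : ℕ, Ex (6 * (i * L)) n p → p % 4 ≠ 3) :
    Pass (datE (i * L) E b) n := by
  refine ⟨?_, hb⟩
  intro p q j hEx hq hqc hT hj
  obtain ⟨d, hd, ho⟩ := hT
  have hd' := hE hd
  have hi0 : i ≠ 0 := hi.pos.ne'
  rw [mem_EE hi0 hL0] at hd'
  have : Fact q.Prime := ⟨hq⟩
  have hnp := pow_split (i := i) hEx.1 (ex_split hEx)
  have hn2 : 2 ≤ n ^ i := hn.trans (Nat.le_self_pow hi0 n)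
  refine Pool.Agent.W114.VT.excluded' hm hm3 hn2 h hq ?_ ?_ hEx.1 hnp.1 hnp.2 hi hj
  · push_cast
    rw [← pow_mul, ← orderOf_dvd_iff_pow_eq_one, ho]
    exact hd'.1.trans (Nat.mul_dvd_mul_left i hLm)
  · intro h1
    push_cast at h1
    rw [← orderOf_dvd_iff_pow_eq_one, ho] at h1
    exact hd'.2 h1

/-- no exact prime divisor is `3` modulo `4` -/
theorem no_three' {i n m : ℕ} (hi : Odd i) (hm : Odd m) (hm3 : 3 ≤ m) (hn : 2 ≤ n)
    (h : HasSinger (n ^ i) m) (h4 : n % 4 = 1 ∧ m % 4 = 3) {c p : ℕ} (hE : Ex c n p) :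
    p % 4 ≠ 3 := by
  intro hp4
  have hp : p.Prime := hE.1
  have hi0 : i ≠ 0 := hi.pos.ne'
  have hpn : p ∣ n ^ i := dvd_pow hE.2.2.1 hi0
  have hn2 : 2 ≤ n ^ i := hn.trans (Nat.le_self_pow hi0 n)
  have : Fact p.Prime := ⟨hp⟩
  obtain ⟨N, hN⟩ : ∃ N, N = n ^ i := ⟨_, rfl⟩
  have hN4 : N % 4 = 1 := by
    rw [hN, Nat.pow_mod, h4.1]
    simp
  have hnp := pow_split (i := i) hE.1 (ex_split hE)
  rw [← hN] at h hpn hn2 hnp
  set V : ℕ := ∑ j ∈ Finset.range m, N ^ j with hV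
  have hV4 : V % 4 = 3 := by
    rw [hV, geom_mod_one hN4, h4.2]
  have h5 : jacobiSym (p : ℤ) V = -1 := by
    rw [jacobiSym.quadratic_reciprocity_three_mod_four hp4 hV4]
    have h6 : jacobiSym (V : ℤ) p = 1 := by
      have h7 : (V : ℤ) % (p : ℤ) = 1 % (p : ℤ) := by
        have h8 : V = 1 + N * ∑ j ∈ Finset.range (m - 1), N ^ j := by
          have h9 : m = (m - 1) + 1 := by omega
          rw [hV]
          conv_lhs => rw [h9]
          rw [Finset.sum_range_succ', Finset.mul_sum, pow_zero, add_comm]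
          congr 1
          refine Finset.sum_congr rfl fun j _ => ?_
          ring
        obtain ⟨c, hc⟩ := hpn
        rw [h8]
        push_cast
        rw [hc]
        push_cast
        rw [mul_assoc (p : ℤ), Int.add_mul_emod_self_left]
      rw [jacobiSym.mod_left, h7, ← jacobiSym.mod_left, jacobiSym.one_left]
    rw [h6]
  obtain ⟨q, hq, hqV, hJ⟩ := jacobiSym.eq_neg_one_at_prime_divisor_of_eq_neg_one h5
  have : Fact q.Prime := ⟨hq⟩
  rw [← jacobiSym.legendreSym.to_jacobiSym] at hJ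
  have h8 : ((p : ℕ) : ZMod q) ^ (q / 2) = -1 := by
    have h9 := legendreSym.eq_pow q (p : ℤ)
    rw [hJ, Int.cast_natCast] at h9
    rw [← h9]
    push_cast
    rfl
  exact excluded_dvd hm hm3 hn2 h hq hqV hE.1 hnp.1 hnp.2 hi h8

/-- at least two orders -/
theorem two_le_card {i L : ℕ} (hi : Odd i) (hL : Odd L) (h3 : 3 ≤ L)
    (h : ¬ (L.Prime ∧ ∃ a, i = L ^ a)) : 2 ≤ (EE i L).card := by
  have hi0 : 0 < i := hi.pos
  have hL0 : 0 < L := by omega
  have hmem := (good_EE hi hL h3).mem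
  suffices hs : ∃ d ∈ EE i L, d ≠ i * L by
    obtain ⟨d, hd, hne⟩ := hs
    have h4 : ({d, i * L} : Finset ℕ) ⊆ EE i L := by
      intro x hx
      rw [mem_insert, mem_singleton] at hx
      rcases hx with rfl | rfl
      · exact hd
      · exact hmem
    have h5 := card_le_card h4
    rwa [card_pair hne] at h5
  by_cases hp : L.Prime
  · have h1 : ¬ ∃ a, i = L ^ a := fun h2 => h ⟨hp, h2⟩
    obtain ⟨e, u, hu, hiu⟩ : ∃ e u, ¬ L ∣ u ∧ i = L ^ e * u :=
      Nat.exists_eq_pow_mul_and_not_dvd hi0.ne' L hp.one_lt.ne'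
    have hu0 : 0 < u := by
      rcases Nat.eq_zero_or_pos u with h2 | h2
      · rw [h2] at hu
        exact absurd (dvd_zero L) hu
      · exact h2
    have hu1 : u ≠ 1 := by
      rintro rfl
      exact h1 ⟨e, by rw [hiu, mul_one]⟩
    refine ⟨L ^ (e + 1), (mem_EE hi0.ne' hL0.ne').2 ⟨?_, ?_⟩, ?_⟩
    · rw [hiu, pow_succ]
      exact ⟨u, by ring⟩
    · intro h2
      rw [hiu, pow_succ] at h2
      exact hu (Nat.dvd_of_mul_dvd_mul_left (pow_pos hL0 e) h2)
    · intro h2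
      rw [hiu] at h2
      have h3 : L ^ (e + 1) * 1 = L ^ (e + 1) * u := by
        rw [mul_one]
        calc L ^ (e + 1) = L ^ e * u * L := h2
          _ = _ := by rw [pow_succ]; ring
      exact hu1 (Nat.eq_of_mul_eq_mul_left (pow_pos hL0 _) h3).symm
  · have hmf : L.minFac.Prime := Nat.minFac_prime (by omega)
    have hne : L.minFac ≠ L := fun h => hp (h ▸ hmf)
    refine ⟨i * L.minFac, (mem_EE hi0.ne' hL0.ne').2 ⟨?_, ?_⟩, ?_⟩
    · exact Nat.mul_dvd_mul_left i (Nat.minFac_dvd L)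
    · intro h2
      have h5 := Nat.le_of_dvd hi0 h2
      have h6 : i * 2 ≤ i * L.minFac := Nat.mul_le_mul_left i hmf.two_le
      omega
    · intro h2
      exact hne (Nat.eq_of_mul_eq_mul_left hi0 h2)

/-! ## The counts -/

/-- the condition for the sharp count -/
def Cond (i L n m : ℕ) : Prop := ¬ (L.Prime ∧ ∃ a, i = L ^ a) ∨ (n % 4 = 1 ∧ m % 4 = 3)

theorem app1 {i L : ℕ} (hi : Odd i) (hL : Odd L) (h3 : 3 ≤ L) :
    Tendsto (fun X : ℕ => ({n : ℕ | 2 ≤ n ∧ n ≤ X ∧ ¬ IsPrimePow n ∧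
      ∃ m : ℕ, Odd m ∧ 3 ≤ m ∧ L ∣ m ∧ Cond i L n m ∧ HasSinger (n ^ i) m}.ncard : ℝ) *
        Real.log X / X) atTop (𝓝 0) := by
  have hL0 : L ≠ 0 := by omega
  by_cases hp : L.Prime ∧ ∃ a, i = L ^ a
  · have h1 : 1 < (datE (i * L) (EE i L) 1).τ + (datE (i * L) (EE i L) 1).β / 2 := by
      have e1 : (datE (i * L) (EE i L) 1).τ = ((EE i L).card : ℝ) := rfl
      have e2 : (datE (i * L) (EE i L) 1).β = 1 := rfl
      have h4 : 0 < (EE i L).card := Finset.card_pos.2 ⟨_, (good_EE hi hL h3).mem⟩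
      have h5 : (1 : ℝ) ≤ ((EE i L).card : ℝ) := by exact_mod_cast h4
      rw [e1, e2]
      linarith
    refine squeeze (fun X => ?_) (fun X => ?_)
      (mainSG (datE (i * L) (EE i L) 1) (axE (good_EE hi hL h3) 1 (Or.inr rfl)) h1)
    · rintro n ⟨hn2, hnX, hnp, m, hm, hm3, hLm, hC, hS⟩
      have hC' := hC.resolve_left (not_not.2 hp)
      exact ⟨by omega, hnX, passE 1 hi hL0 subset_rfl hm hm3 hLm hn2 hS
        (fun _ p hE => no_three' hi hm hm3 hn2 hS hC' hE), fun hp => hnp hp.isPrimePow⟩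
    · exact finX _ X
  · have h1 : 1 < (datE (i * L) (EE i L) 0).τ + (datE (i * L) (EE i L) 0).β / 2 := by
      have e1 : (datE (i * L) (EE i L) 0).τ = ((EE i L).card : ℝ) := rfl
      have e2 : (datE (i * L) (EE i L) 0).β = 0 := rfl
      have h5 : (2 : ℝ) ≤ ((EE i L).card : ℝ) := by exact_mod_cast two_le_card hi hL h3 hp
      rw [e1, e2]
      linarith
    refine squeeze (fun X => ?_) (fun X => ?_)
      (mainSG (datE (i * L) (EE i L) 0) (axE (good_EE hi hL h3) 0 (Or.inl rfl)) h1)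
    · rintro n ⟨hn2, hnX, hnp, m, hm, hm3, hLm, hC, hS⟩
      exact ⟨by omega, hnX, passE 0 hi hL0 subset_rfl hm hm3 hLm hn2 hS
        (fun h0 => by norm_num at h0), fun hp => hnp hp.isPrimePow⟩
    · exact finX _ X

theorem cnt1 {i L : ℕ} (hi : Odd i) (hL : Odd L) (h3 : 3 ≤ L) (ε : ℝ) (hε : 0 < ε) :
    ∃ C : ℝ, 0 < C ∧ ∀ X : ℕ, 3 ≤ X →
      ({n : ℕ | 2 ≤ n ∧ n ≤ X ∧
        ∃ m : ℕ, Odd m ∧ 3 ≤ m ∧ L ∣ m ∧ HasSinger (n ^ i) m}.ncard : ℝ) ≤
      C * X * (Real.log X) ^ (ε - 1) := by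
  have hL0 : L ≠ 0 := by omega
  have e1 : (datE (i * L) {i * L} 0).τ + (datE (i * L) {i * L} 0).β / 2 = 1 := by
    have e1 : (datE (i * L) {i * L} 0).τ = ((({i * L} : Finset ℕ)).card : ℝ) := rfl
    have e2 : (datE (i * L) {i * L} 0).β = 0 := rfl
    rw [e1, e2, card_singleton]
    norm_num
  obtain ⟨C, hC, H⟩ := OC.oc Pool.Agent.W52.PQ.sv mn_full BK.bk (datE (i * L) {i * L} 0)
    (axE (good_single hi hL h3) 0 (Or.inl rfl)) e1 ε hε
  refine ⟨C, hC, fun X hX => le_trans ?_ (H X hX)⟩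
  have hsub : {n : ℕ | 2 ≤ n ∧ n ≤ X ∧
        ∃ m : ℕ, Odd m ∧ 3 ≤ m ∧ L ∣ m ∧ HasSinger (n ^ i) m} ⊆
      {n : ℕ | 1 ≤ n ∧ n ≤ X ∧ Pass (datE (i * L) {i * L} 0) n} := by
    rintro n ⟨hn2, hnX, m, hm, hm3, hLm, hS⟩
    refine ⟨by omega, hnX, passE 0 hi hL0 ?_ hm hm3 hLm hn2 hS (fun h0 => by norm_num at h0)⟩
    intro d hd
    rw [mem_singleton] at hd
    rw [hd]
    exact (good_EE hi hL h3).mem
  exact_mod_cast Set.ncard_le_ncard hsub (finX _ X)

end Pool.Agent.R116.SP
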